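import Pool.Agent.N842.TQ.Ab
import Pool.Agent.N842.HS.Srf2

/-!
# Summation by parts over the prime ideals
-/

set_option autoImplicit false

namespace Pool.Agent.N842.TY

open Finset NumberField IsDedekindDomain
open Pool.Agent.N842.TP (parts)
open Pool.Agent.N842.TQ (step2)
open Pool.Agent.N842.HS (VT mem_VT)

/-- **summation by parts** -/
lemma abelN {β ρ : ℝ} (hβ0 : 0 < β) (hβρ : β < ρ) (hρ : ρ ≤ 1) (S : ℕ → ℝ) (C₁ : ℝ) (hC₁ : 0 ≤ C₁) (y n : ℕ) (hy : 1 ≤ y) (hyn : y ≤ n)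
    (hS : ∀ u, y ≤ u → u ≤ n → |S u| ≤ C₁ * (u : ℝ) ^ β) (a : ℕ → ℝ) (R : ℝ) (hR : 0 ≤ R) (ha0 : ∀ j, 0 ≤ a j)
    (ha1 : ∀ j, y ≤ j → a j ≤ R * ((j : ℝ) + 1) ^ (-ρ)) (ha2 : ∀ j, y ≤ j → a (j + 1) ≤ a j) :
    |∑ j ∈ Ico y n, (S (j + 1) - S j) * a j| ≤ (3 + 2 * β / (ρ - β)) * C₁ * (R * (y : ℝ) ^ (β - ρ)) := by
  have hy0 : (0 : ℝ) < y := by exact_mod_cast hy
  have hb : 0 < ρ - β := by linarith
  have hyβ : 0 < (y : ℝ) ^ (β - ρ) := by positivity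
  have hq : 0 ≤ 2 * β / (ρ - β) := by positivity
  have hρ0 : 0 < ρ := by linarith
  have hmono : ∀ u : ℕ, y ≤ u → (u : ℝ) ^ β * a u ≤ R * (y : ℝ) ^ (β - ρ) := by
    intro u hu
    have hu0 : (0 : ℝ) < u := by exact_mod_cast (by omega : 0 < u)
    have h1 : (u : ℝ) ^ β * a u ≤ (u : ℝ) ^ β * (R * (u : ℝ) ^ (-ρ)) := by
      apply mul_le_mul_of_nonneg_left _ (by positivity)
      refine (ha1 u hu).trans (mul_le_mul_of_nonneg_left ?_ hR)
      exact Real.rpow_le_rpow_of_nonpos hu0 (by linarith) (by linarith)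
    refine h1.trans ?_
    have h2 : (u : ℝ) ^ β * (R * (u : ℝ) ^ (-ρ)) = R * (u : ℝ) ^ (β - ρ) := by
      rw [sub_eq_add_neg, Real.rpow_add hu0]
      ring
    rw [h2]
    apply mul_le_mul_of_nonneg_left _ hR
    exact Real.rpow_le_rpow_of_nonpos hy0 (by exact_mod_cast hu) (by linarith)
  have hSn : |S n| ≤ C₁ * (n : ℝ) ^ β := hS n hyn le_rfl
  have hSy : |S y| ≤ C₁ * (y : ℝ) ^ β := hS y le_rfl hyn
  have b1 : |S n * a n| ≤ C₁ * (R * (y : ℝ) ^ (β - ρ)) := by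
    rw [abs_mul, abs_of_nonneg (ha0 n)]
    calc |S n| * a n ≤ C₁ * (n : ℝ) ^ β * a n := mul_le_mul_of_nonneg_right hSn (ha0 n)
      _ = C₁ * ((n : ℝ) ^ β * a n) := by ring
      _ ≤ _ := mul_le_mul_of_nonneg_left (hmono n hyn) hC₁
  have b2 : |S y * a y| ≤ C₁ * (R * (y : ℝ) ^ (β - ρ)) := by
    rw [abs_mul, abs_of_nonneg (ha0 y)]
    calc |S y| * a y ≤ C₁ * (y : ℝ) ^ β * a y := mul_le_mul_of_nonneg_right hSy (ha0 y)
      _ = C₁ * ((y : ℝ) ^ β * a y) := by ring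
      _ ≤ _ := mul_le_mul_of_nonneg_left (hmono y le_rfl) hC₁
  have b3 : |∑ j ∈ Ico y n, S (j + 1) * (a j - a (j + 1))| ≤ C₁ * ∑ j ∈ Ico y n, ((j + 1 : ℕ) : ℝ) ^ β * (a j - a (j + 1)) := by
    refine (abs_sum_le_sum_abs _ _).trans ?_
    rw [mul_sum]
    refine sum_le_sum fun j hj => ?_
    rw [mem_Ico] at hj
    have h1 : 0 ≤ a j - a (j + 1) := by
      have := ha2 j hj.1
      linarith
    rw [abs_mul, abs_of_nonneg h1, ← mul_assoc]
    apply mul_le_mul_of_nonneg_right _ h1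
    exact hS (j + 1) (by omega) (by omega)
  have b4 := parts a (fun u : ℕ => (u : ℝ) ^ β) y n hyn
  have b5 : ∑ j ∈ Ico y n, (((j + 1 : ℕ) : ℝ) ^ β - (j : ℝ) ^ β) * a j ≤ 2 * β / (ρ - β) * (R * (y : ℝ) ^ (β - ρ)) := by
    have h1 : ∀ j ∈ Ico y n, (((j + 1 : ℕ) : ℝ) ^ β - (j : ℝ) ^ β) * a j ≤ R * (2 * β / (ρ - β)) * ((j : ℝ) ^ (β - ρ) - ((j : ℝ) + 1) ^ (β - ρ)) := by
      intro j hj
      rw [mem_Ico] at hj
      have h2 := step2 hβ0 hβρ hρ j (by omega)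
      push_cast
      have h3 : (j : ℝ) ^ β ≤ ((j : ℝ) + 1) ^ β := Real.rpow_le_rpow (Nat.cast_nonneg _) (by linarith) hβ0.le
      calc (((j : ℝ) + 1) ^ β - (j : ℝ) ^ β) * a j ≤ (((j : ℝ) + 1) ^ β - (j : ℝ) ^ β) * (R * ((j : ℝ) + 1) ^ (-ρ)) :=
            mul_le_mul_of_nonneg_left (ha1 j hj.1) (by linarith)
        _ = R * ((((j : ℝ) + 1) ^ β - (j : ℝ) ^ β) * ((j : ℝ) + 1) ^ (-ρ)) := by ring
        _ ≤ R * (2 * β / (ρ - β) * ((j : ℝ) ^ (β - ρ) - ((j : ℝ) + 1) ^ (β - ρ))) := mul_le_mul_of_nonneg_left h2 hR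
        _ = _ := by ring
    refine (sum_le_sum h1).trans ?_
    rw [← mul_sum]
    have h2 : ∀ n : ℕ, y ≤ n → ∑ j ∈ Ico y n, ((j : ℝ) ^ (β - ρ) - ((j : ℝ) + 1) ^ (β - ρ)) = (y : ℝ) ^ (β - ρ) - (n : ℝ) ^ (β - ρ) := by
      intro n hn
      induction n, hn using Nat.le_induction with
      | base => simp
      | succ n hn ih =>
        rw [sum_Ico_succ_top hn, ih]
        push_cast
        ring
    have h3 : ∑ j ∈ Ico y n, ((j : ℝ) ^ (β - ρ) - ((j : ℝ) + 1) ^ (β - ρ)) ≤ (y : ℝ) ^ (β - ρ) := by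
      rw [h2 n hyn]
      have : 0 ≤ (n : ℝ) ^ (β - ρ) := by positivity
      linarith
    calc R * (2 * β / (ρ - β)) * ∑ j ∈ Ico y n, ((j : ℝ) ^ (β - ρ) - ((j : ℝ) + 1) ^ (β - ρ)) ≤ R * (2 * β / (ρ - β)) * (y : ℝ) ^ (β - ρ) :=
          mul_le_mul_of_nonneg_left h3 (by positivity)
      _ = _ := by ring
  have b6 : 0 ≤ (n : ℝ) ^ β * a n := mul_nonneg (by positivity) (ha0 n)
  have b7 := hmono y le_rfl
  have b8 : ∑ j ∈ Ico y n, ((j + 1 : ℕ) : ℝ) ^ β * (a j - a (j + 1)) ≤ (1 + 2 * β / (ρ - β)) * (R * (y : ℝ) ^ (β - ρ)) := by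
    linarith
  have b9 := mul_le_mul_of_nonneg_left b8 hC₁
  rw [parts a S y n hyn]
  have b10 := abs_add_le (S n * a n - S y * a y) (∑ j ∈ Ico y n, S (j + 1) * (a j - a (j + 1)))
  have b11 := abs_sub (S n * a n) (S y * a y)
  calc |S n * a n - S y * a y + ∑ j ∈ Ico y n, S (j + 1) * (a j - a (j + 1))| ≤
      C₁ * (R * (y : ℝ) ^ (β - ρ)) + C₁ * (R * (y : ℝ) ^ (β - ρ)) + C₁ * ((1 + 2 * β / (ρ - β)) * (R * (y : ℝ) ^ (β - ρ))) := by linarith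
    _ = _ := by ring

section
variable {K : Type} [Field K] [NumberField K]

/-- the partial sums over the prime ideals -/
noncomputable def PS (X : HeightOneSpectrum (𝓞 K) → ℝ) (u : ℕ) : ℝ := ∑ v ∈ VT K u, X v

open Classical in
lemma VT_mono {u u' : ℕ} (h : u ≤ u') : VT K u ⊆ VT K u' := by
  intro v hv
  rw [mem_VT] at hv ⊢
  omega

open Classical in
/-- the sums over the prime ideals and the partial sums -/
lemma sum_PS (X : HeightOneSpectrum (𝓞 K) → ℝ) (σ : ℝ) (T T' : ℕ) (h : T ≤ T') :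
    ∑ v ∈ VT K T' \ VT K T, X v * (Ideal.absNorm v.asIdeal : ℝ) ^ (-σ) = ∑ j ∈ Ico T T', (PS X (j + 1) - PS X j) * ((j : ℝ) + 1) ^ (-σ) := by
  induction T', h using Nat.le_induction with
  | base => simp
  | succ n hn ih =>
    rw [sum_Ico_succ_top hn, ← ih]
    have h1 : VT K n ⊆ VT K (n + 1) := VT_mono (Nat.le_succ n)
    have h2 : VT K (n + 1) \ VT K T = (VT K n \ VT K T) ∪ (VT K (n + 1) \ VT K n) := by
      have h3 : VT K T ⊆ VT K n := VT_mono hn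
      ext v
      simp only [mem_sdiff, mem_union]
      constructor
      · rintro ⟨ha, hb⟩
        by_cases hc : v ∈ VT K n
        · exact Or.inl ⟨hc, hb⟩
        · exact Or.inr ⟨ha, hc⟩
      · rintro (⟨ha, hb⟩ | ⟨ha, hb⟩)
        · exact ⟨h1 ha, hb⟩
        · exact ⟨ha, fun hc => hb (h3 hc)⟩
    have h4 : Disjoint (VT K n \ VT K T) (VT K (n + 1) \ VT K n) := by
      rw [disjoint_left]
      intro v ha hb
      rw [mem_sdiff] at ha hb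
      exact hb.2 ha.1
    rw [h2, sum_union h4]
    congr 1
    have h5 : PS X (n + 1) - PS X n = ∑ v ∈ VT K (n + 1) \ VT K n, X v := by
      unfold PS
      rw [← sum_sdiff h1]
      ring
    rw [h5, sum_mul]
    refine sum_congr rfl fun v hv => ?_
    rw [mem_sdiff, mem_VT, mem_VT] at hv
    have h6 : Ideal.absNorm v.asIdeal = n + 1 := by omega
    rw [h6]
    push_cast
    rfl

open Classical in
/-- the sums to the right of the line on which the partial sums are small -/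
lemma right {β ρ : ℝ} (hβ0 : 0 < β) (hβρ : β < ρ) (hρ : ρ ≤ 1) (X : HeightOneSpectrum (𝓞 K) → ℝ) (C₁ : ℝ) (hC₁ : 0 ≤ C₁) (T T' : ℕ) (hT : 1 ≤ T) (hTT : T ≤ T')
    (hS : ∀ u, T ≤ u → u ≤ T' → |PS X u| ≤ C₁ * (u : ℝ) ^ β) (σ : ℝ) (hσ : ρ ≤ σ) :
    |∑ v ∈ VT K T' \ VT K T, X v * (Ideal.absNorm v.asIdeal : ℝ) ^ (-σ)| ≤ (3 + 2 * β / (ρ - β)) * C₁ * (T : ℝ) ^ (β - σ) := by
  have hT0 : (0 : ℝ) < T := by exact_mod_cast hT
  rw [sum_PS X σ T T' hTT]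
  have h1 := abelN hβ0 hβρ hρ (PS X) C₁ hC₁ T T' hT hTT hS (fun j => ((j : ℝ) + 1) ^ (-σ)) ((T : ℝ) ^ (-(σ - ρ))) (by positivity)
    (fun j => by positivity) (fun j hj => by
      have hj0 : (0 : ℝ) < (j : ℝ) + 1 := by positivity
      have e1 : ((j : ℝ) + 1) ^ (-σ) = ((j : ℝ) + 1) ^ (-(σ - ρ)) * ((j : ℝ) + 1) ^ (-ρ) := by
        rw [← Real.rpow_add hj0]
        congr 1
        ring
      show ((j : ℝ) + 1) ^ (-σ) ≤ _
      rw [e1]
      apply mul_le_mul_of_nonneg_right _ (by positivity)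
      apply Real.rpow_le_rpow_of_nonpos hT0 _ (by linarith)
      have : (T : ℝ) ≤ j := by exact_mod_cast hj
      linarith) (fun j hj => by
      have hj0 : (0 : ℝ) < (j : ℝ) + 1 := by positivity
      show (((j + 1 : ℕ) : ℝ) + 1) ^ (-σ) ≤ ((j : ℝ) + 1) ^ (-σ)
      apply Real.rpow_le_rpow_of_nonpos hj0 _ (by linarith)
      push_cast
      linarith)
  refine h1.trans (le_of_eq ?_)
  rw [← Real.rpow_add hT0]
  congr 2
  ring

/-- elementary bounds -/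
lemma tel_up {κ : ℝ} (h0 : 0 ≤ κ) (h1 : κ ≤ 1) (j : ℕ) (hj : 1 ≤ j) : κ * ((j : ℝ) + 1) ^ (-(1 + κ)) ≤ (j : ℝ) ^ (-κ) - ((j : ℝ) + 1) ^ (-κ) := by
  have hj0 : (0 : ℝ) < j := by exact_mod_cast hj
  have hj1 : (0 : ℝ) < (j : ℝ) + 1 := by positivity
  have e1 : ((j : ℝ) + 1) ^ (-κ) = (j : ℝ) ^ (-κ) * (1 + -(1 / ((j : ℝ) + 1))) ^ κ := by
    have e3 : 1 + -(1 / ((j : ℝ) + 1)) = (j : ℝ) / ((j : ℝ) + 1) := by
      field_simp
      ring
    rw [e3, Real.div_rpow hj0.le hj1.le, Real.rpow_neg hj0.le, Real.rpow_neg hj1.le]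
    have : 0 < (j : ℝ) ^ κ := by positivity
    field_simp
  have e2 := rpow_one_add_le_one_add_mul_self (s := -(1 / ((j : ℝ) + 1))) (p := κ) (by
      have : 1 / ((j : ℝ) + 1) ≤ 1 := by
        rw [div_le_one hj1]
        linarith
      linarith) h0 h1
  have e4 : ((j : ℝ) + 1) ^ (-κ) ≤ (j : ℝ) ^ (-κ) * (1 + κ * -(1 / ((j : ℝ) + 1))) := by
    rw [e1]
    exact mul_le_mul_of_nonneg_left e2 (by positivity)
  have e5 : ((j : ℝ) + 1) ^ (-(1 + κ)) = ((j : ℝ) + 1) ^ (-κ) * (1 / ((j : ℝ) + 1)) := by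
    rw [one_div, ← Real.rpow_neg_one, ← Real.rpow_add hj1]
    congr 1
    ring
  have e6 : ((j : ℝ) + 1) ^ (-κ) ≤ (j : ℝ) ^ (-κ) := Real.rpow_le_rpow_of_nonpos hj0 (by linarith) (by linarith)
  rw [e5]
  have e7 : κ * (((j : ℝ) + 1) ^ (-κ) * (1 / ((j : ℝ) + 1))) ≤ (j : ℝ) ^ (-κ) * (κ * (1 / ((j : ℝ) + 1))) := by
    calc κ * (((j : ℝ) + 1) ^ (-κ) * (1 / ((j : ℝ) + 1))) = ((j : ℝ) + 1) ^ (-κ) * (κ * (1 / ((j : ℝ) + 1))) := by ring
      _ ≤ _ := mul_le_mul_of_nonneg_right e6 (by positivity)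
  linarith

lemma tel_low {κ : ℝ} (h0 : 0 ≤ κ) (h1 : κ ≤ 1) (j : ℕ) : ((j : ℝ) + 1) ^ (-κ) - ((j : ℝ) + 2) ^ (-κ) ≤ κ * ((j : ℝ) + 1) ^ (-(1 + κ)) := by
  have hj1 : (0 : ℝ) < (j : ℝ) + 1 := by positivity
  have hj2 : (0 : ℝ) < (j : ℝ) + 2 := by positivity
  have e1 : ((j : ℝ) + 1) ^ (-κ) = ((j : ℝ) + 2) ^ (-κ) * (1 + 1 / ((j : ℝ) + 1)) ^ κ := by
    have e3 : 1 + 1 / ((j : ℝ) + 1) = ((j : ℝ) + 2) / ((j : ℝ) + 1) := by
      field_simp
      ring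
    rw [e3, Real.div_rpow hj2.le hj1.le, Real.rpow_neg hj1.le, Real.rpow_neg hj2.le]
    have : 0 < ((j : ℝ) + 2) ^ κ := by positivity
    field_simp
  have e2 := rpow_one_add_le_one_add_mul_self (s := 1 / ((j : ℝ) + 1)) (p := κ) (by
      have : 0 ≤ 1 / ((j : ℝ) + 1) := by positivity
      linarith) h0 h1
  have e4 : ((j : ℝ) + 1) ^ (-κ) ≤ ((j : ℝ) + 2) ^ (-κ) * (1 + κ * (1 / ((j : ℝ) + 1))) := by
    rw [e1]
    exact mul_le_mul_of_nonneg_left e2 (by positivity)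
  have e5 : ((j : ℝ) + 1) ^ (-(1 + κ)) = ((j : ℝ) + 1) ^ (-κ) * (1 / ((j : ℝ) + 1)) := by
    rw [one_div, ← Real.rpow_neg_one, ← Real.rpow_add hj1]
    congr 1
    ring
  have e6 : ((j : ℝ) + 2) ^ (-κ) ≤ ((j : ℝ) + 1) ^ (-κ) := Real.rpow_le_rpow_of_nonpos hj1 (by linarith) (by linarith)
  rw [e5]
  have e7 : ((j : ℝ) + 2) ^ (-κ) * (κ * (1 / ((j : ℝ) + 1))) ≤ κ * (((j : ℝ) + 1) ^ (-κ) * (1 / ((j : ℝ) + 1))) := by
    calc ((j : ℝ) + 2) ^ (-κ) * (κ * (1 / ((j : ℝ) + 1))) ≤ ((j : ℝ) + 1) ^ (-κ) * (κ * (1 / ((j : ℝ) + 1))) :=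
          mul_le_mul_of_nonneg_right e6 (by positivity)
      _ = _ := by ring
  linarith

/-- the sum of the powers near the pole -/
lemma near_one {M : ℝ} (hM : 1 ≤ M) {κ : ℝ} (h0 : 0 < κ) (y T : ℕ) (hy : 2 ≤ y) (hyT : y ≤ T)
    (hκ1 : M / Real.log T ≤ κ) (hκ2 : κ ≤ 1 / (M * Real.log y)) (hκ3 : κ ≤ 1) :
    κ * ∑ j ∈ Ico y T, ((j : ℝ) + 1) ^ (-(1 + κ)) ≤ 1 ∧ 1 - 3 / M ≤ κ * ∑ j ∈ Ico y T, ((j : ℝ) + 1) ^ (-(1 + κ)) := by
  have hy0 : (0 : ℝ) < y := by exact_mod_cast (by omega : 0 < y)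
  have hy2 : (2 : ℝ) ≤ y := by exact_mod_cast hy
  have hT2 : (2 : ℝ) ≤ T := by exact_mod_cast (by omega : 2 ≤ T)
  have hly : 0 < Real.log y := Real.log_pos (by linarith)
  have hlT : 0 < Real.log T := Real.log_pos (by linarith)
  have s1 : ∀ n : ℕ, y ≤ n → ∑ j ∈ Ico y n, ((j : ℝ) ^ (-κ) - ((j : ℝ) + 1) ^ (-κ)) = (y : ℝ) ^ (-κ) - (n : ℝ) ^ (-κ) := by
    intro n hn
    induction n, hn using Nat.le_induction with
    | base => simp
    | succ n hn ih =>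
      rw [sum_Ico_succ_top hn, ih]
      push_cast
      ring
  have s2 : ∀ n : ℕ, y ≤ n → ∑ j ∈ Ico y n, (((j : ℝ) + 1) ^ (-κ) - ((j : ℝ) + 2) ^ (-κ)) = ((y : ℝ) + 1) ^ (-κ) - ((n : ℝ) + 1) ^ (-κ) := by
    intro n hn
    induction n, hn using Nat.le_induction with
    | base => simp
    | succ n hn ih =>
      rw [sum_Ico_succ_top hn, ih]
      push_cast
      have : (n : ℝ) + 1 + 1 = n + 2 := by ring
      rw [this]
      ring
  constructor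
  · rw [mul_sum]
    refine (sum_le_sum (g := fun j : ℕ => (j : ℝ) ^ (-κ) - ((j : ℝ) + 1) ^ (-κ)) fun j hj => ?_).trans ?_
    · rw [mem_Ico] at hj
      exact tel_up h0.le hκ3 j (by omega)
    · rw [s1 T hyT]
      have e1 : (y : ℝ) ^ (-κ) ≤ 1 := Real.rpow_le_one_of_one_le_of_nonpos (by linarith) (by linarith)
      have e2 : 0 ≤ (T : ℝ) ^ (-κ) := by positivity
      linarith
  · have h1 : ((y : ℝ) + 1) ^ (-κ) - ((T : ℝ) + 1) ^ (-κ) ≤ κ * ∑ j ∈ Ico y T, ((j : ℝ) + 1) ^ (-(1 + κ)) := by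
      rw [mul_sum, ← s2 T hyT]
      exact sum_le_sum fun j _ => tel_low h0.le hκ3 j
    have h2 : 1 - 2 / M ≤ ((y : ℝ) + 1) ^ (-κ) := by
      have e1 : ((y : ℝ) + 1) ^ (-κ) = Real.exp (-κ * Real.log ((y : ℝ) + 1)) := by
        rw [Real.rpow_def_of_pos (by linarith)]
        congr 1
        ring
      have e2 := Real.add_one_le_exp (-κ * Real.log ((y : ℝ) + 1))
      have e3 : Real.log ((y : ℝ) + 1) ≤ 2 * Real.log y := by
        have e4 : Real.log ((y : ℝ) + 1) ≤ Real.log ((y : ℝ) ^ 2) := by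
          apply Real.log_le_log (by linarith)
          nlinarith
        rw [Real.log_pow] at e4
        exact_mod_cast e4
      have e5 : κ * Real.log y ≤ 1 / M := by
        have e6 : κ * Real.log y ≤ 1 / (M * Real.log y) * Real.log y := mul_le_mul_of_nonneg_right hκ2 hly.le
        have e7 : 1 / (M * Real.log y) * Real.log y = 1 / M := by field_simp
        linarith
      have e8 : κ * Real.log ((y : ℝ) + 1) ≤ 2 / M := by
        have e9 : κ * Real.log ((y : ℝ) + 1) ≤ κ * (2 * Real.log y) := mul_le_mul_of_nonneg_left e3 h0.le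
        have e10 : 2 / M = 2 * (1 / M) := by ring
        linarith
      rw [e1]
      linarith
    have h3 : ((T : ℝ) + 1) ^ (-κ) ≤ 1 / M := by
      have e1 : ((T : ℝ) + 1) ^ (-κ) ≤ (T : ℝ) ^ (-κ) := Real.rpow_le_rpow_of_nonpos (by linarith) (by linarith) (by linarith)
      have e2 : (T : ℝ) ^ (-κ) = Real.exp (-(κ * Real.log T)) := by
        rw [Real.rpow_def_of_pos (by linarith)]
        congr 1
        ring
      have e3 : M ≤ κ * Real.log T := by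
        rw [div_le_iff₀ hlT] at hκ1
        exact hκ1
      have e4 : M ≤ Real.exp (κ * Real.log T) := by
        have := Real.add_one_le_exp (κ * Real.log T)
        linarith
      rw [e2, Real.exp_neg, inv_eq_one_div] at e1
      refine e1.trans ?_
      exact one_div_le_one_div_of_le (by linarith) e4
    have h4 : 3 / M = 2 / M + 1 / M := by ring
    linarith

open Classical in
/-- **the residue** seen by the sums -/
theorem residue {M : ℝ} (hM : 1 ≤ M) (X : HeightOneSpectrum (𝓞 K) → ℝ) (α ε : ℝ) (hε : 0 ≤ ε) (y T : ℕ) (hy : 2 ≤ y) (hyT : y ≤ T)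
    (hS : ∀ u, y ≤ u → u ≤ T → |PS X u - α * u| ≤ ε * u) {κ : ℝ} (h0 : 0 < κ)
    (hκ1 : M / Real.log T ≤ κ) (hκ2 : κ ≤ 1 / (M * Real.log y)) (hκ3 : κ ≤ 1) :
    |κ * ∑ v ∈ VT K T \ VT K y, X v * (Ideal.absNorm v.asIdeal : ℝ) ^ (-(1 + κ)) - α| ≤ |α| * (3 / M) + 3 * ε := by
  obtain ⟨n1, n2⟩ := near_one hM h0 y T hy hyT hκ1 hκ2 hκ3
  obtain ⟨a, ha⟩ : ∃ a : ℕ → ℝ, a = fun j : ℕ => ((j : ℝ) + 1) ^ (-(1 + κ)) := ⟨_, rfl⟩
  obtain ⟨G, hG⟩ : ∃ G : ℕ → ℝ, G = fun u : ℕ => PS X u - α * (u : ℝ) := ⟨_, rfl⟩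
  have hy0 : (0 : ℝ) < y := by exact_mod_cast (by omega : 0 < y)
  have ha0 : ∀ j, 0 ≤ a j := fun j => by rw [ha]; positivity
  have ha2 : ∀ j, a (j + 1) ≤ a j := by
    intro j
    have hj0 : (0 : ℝ) < (j : ℝ) + 1 := by positivity
    rw [ha]
    apply Real.rpow_le_rpow_of_nonpos hj0 _ (by linarith)
    push_cast
    linarith
  have e1 : ∑ v ∈ VT K T \ VT K y, X v * (Ideal.absNorm v.asIdeal : ℝ) ^ (-(1 + κ)) = α * ∑ j ∈ Ico y T, a j + ∑ j ∈ Ico y T, (G (j + 1) - G j) * a j := by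
    rw [sum_PS X (1 + κ) y T hyT, mul_sum, ← sum_add_distrib]
    refine sum_congr rfl fun j _ => ?_
    rw [hG, ha]
    push_cast
    ring
  have e2 : |∑ j ∈ Ico y T, (G (j + 1) - G j) * a j| ≤ ε * (∑ j ∈ Ico y T, a j + 2 * (y * a y)) := by
    rw [parts a G y T hyT]
    have hGu : ∀ u, y ≤ u → u ≤ T → |G u| ≤ ε * u := by
      intro u h1 h2
      rw [hG]
      exact hS u h1 h2
    have b1 : |G T * a T| ≤ ε * (T * a T) := by
      rw [abs_mul, abs_of_nonneg (ha0 T), ← mul_assoc]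
      exact mul_le_mul_of_nonneg_right (hGu T hyT le_rfl) (ha0 T)
    have b2 : |G y * a y| ≤ ε * (y * a y) := by
      rw [abs_mul, abs_of_nonneg (ha0 y), ← mul_assoc]
      exact mul_le_mul_of_nonneg_right (hGu y le_rfl hyT) (ha0 y)
    have b3 : |∑ j ∈ Ico y T, G (j + 1) * (a j - a (j + 1))| ≤ ε * ∑ j ∈ Ico y T, ((j + 1 : ℕ) : ℝ) * (a j - a (j + 1)) := by
      refine (abs_sum_le_sum_abs _ _).trans ?_
      rw [mul_sum]
      refine sum_le_sum fun j hj => ?_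
      rw [mem_Ico] at hj
      have h1 : 0 ≤ a j - a (j + 1) := by
        have := ha2 j
        linarith
      rw [abs_mul, abs_of_nonneg h1, ← mul_assoc]
      exact mul_le_mul_of_nonneg_right (hGu (j + 1) (by omega) (by omega)) h1
    have b4 := parts a (fun u : ℕ => (u : ℝ)) y T hyT
    have b5 : ∑ j ∈ Ico y T, (((j + 1 : ℕ) : ℝ) - (j : ℝ)) * a j = ∑ j ∈ Ico y T, a j := by
      refine sum_congr rfl fun j _ => ?_
      push_cast
      ring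
    rw [b5] at b4
    have b6 : ∑ j ∈ Ico y T, ((j + 1 : ℕ) : ℝ) * (a j - a (j + 1)) = ∑ j ∈ Ico y T, a j - T * a T + y * a y := by linarith
    rw [b6] at b3
    have b10 := abs_add_le (G T * a T - G y * a y) (∑ j ∈ Ico y T, G (j + 1) * (a j - a (j + 1)))
    have b11 := abs_sub (G T * a T) (G y * a y)
    calc |G T * a T - G y * a y + ∑ j ∈ Ico y T, G (j + 1) * (a j - a (j + 1))| ≤
        ε * (T * a T) + ε * (y * a y) + ε * (∑ j ∈ Ico y T, a j - T * a T + y * a y) := by linarith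
      _ = _ := by ring
  have e3 : κ * (y * a y) ≤ 1 := by
    have f1 : a y ≤ 1 / y := by
      rw [ha]
      calc ((y : ℝ) + 1) ^ (-(1 + κ)) ≤ (y : ℝ) ^ (-(1 + κ)) := Real.rpow_le_rpow_of_nonpos hy0 (by linarith) (by linarith)
        _ ≤ (y : ℝ) ^ (-1 : ℝ) := by
            apply Real.rpow_le_rpow_of_exponent_le _ (by linarith)
            exact_mod_cast (by omega : 1 ≤ y)
        _ = 1 / y := by rw [Real.rpow_neg_one, one_div]
    have f2 : (y : ℝ) * a y ≤ 1 := by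
      calc (y : ℝ) * a y ≤ y * (1 / y) := mul_le_mul_of_nonneg_left f1 hy0.le
        _ = 1 := by field_simp
    have f3 : 0 ≤ (y : ℝ) * a y := mul_nonneg hy0.le (ha0 y)
    nlinarith
  have e4 : κ * (α * ∑ j ∈ Ico y T, a j + ∑ j ∈ Ico y T, (G (j + 1) - G j) * a j) - α =
      α * (κ * ∑ j ∈ Ico y T, a j - 1) + κ * ∑ j ∈ Ico y T, (G (j + 1) - G j) * a j := by ring
  have n1' : κ * ∑ j ∈ Ico y T, a j ≤ 1 := by rw [ha]; exact n1
  have n2' : 1 - 3 / M ≤ κ * ∑ j ∈ Ico y T, a j := by rw [ha]; exact n2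
  have e5 : |α * (κ * ∑ j ∈ Ico y T, a j - 1)| ≤ |α| * (3 / M) := by
    rw [abs_mul]
    apply mul_le_mul_of_nonneg_left _ (abs_nonneg _)
    rw [abs_le]
    constructor
    · linarith
    · have : 0 ≤ 3 / M := by positivity
      linarith
  have e6 : |κ * ∑ j ∈ Ico y T, (G (j + 1) - G j) * a j| ≤ 3 * ε := by
    rw [abs_mul, abs_of_pos h0]
    calc κ * |∑ j ∈ Ico y T, (G (j + 1) - G j) * a j| ≤ κ * (ε * (∑ j ∈ Ico y T, a j + 2 * (y * a y))) := mul_le_mul_of_nonneg_left e2 h0.le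
      _ = ε * (κ * ∑ j ∈ Ico y T, a j + 2 * (κ * (y * a y))) := by ring
      _ ≤ ε * (1 + 2 * 1) := by
          apply mul_le_mul_of_nonneg_left _ hε
          linarith
      _ = _ := by ring
  rw [e1, e4]
  exact (abs_add_le _ _).trans (add_le_add e5 e6)

end

end Pool.Agent.N842.TY
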