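import Pool.Agent.N842.TY.Str
import Pool.Agent.N842.TX.Law2

/-!
# The sums in vertical strips and near the pole
-/

set_option autoImplicit false

namespace Pool.Agent.N842.TY

open Finset NumberField IsDedekindDomain Filter Topology
open Pool.Agent.N842.HS (VT mem_VT card_high cf)
open Pool.Agent.N842.TX (sum_pow ev_fin ev_lim)
open Pool.Agent.Y57.FD (digit exceptions)

section
variable {K : Type} [Field K] [NumberField K]

variable (K) in
/-- the sums of the negative powers of the norms of all prime ideals -/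
lemma sum_pow_all : ∃ n : ℕ, ∀ s : ℝ, 0 ≤ s → s ≤ 1 / 2 → ∀ T : ℕ, 1 ≤ T →
    ∑ v ∈ VT K T, (Ideal.absNorm v.asIdeal : ℝ) ^ (-s) ≤ n * (T : ℝ) ^ (1 - s) := by
  classical
  obtain ⟨n₁, hn₁⟩ := sum_pow K
  refine ⟨n₁ * 2 + Module.finrank ℤ (𝓞 K), fun s hs0 hs1 T hT => ?_⟩
  have hT1 : (1 : ℝ) ≤ T := by exact_mod_cast hT
  have h1 := hn₁ s hs0 hs1 T
  rw [← sum_filter_add_sum_filter_not (VT K T) (fun v => (Ideal.absNorm v.asIdeal).Prime)]
  have h2 : ∑ v ∈ (VT K T).filter (fun v => ¬ (Ideal.absNorm v.asIdeal).Prime), (Ideal.absNorm v.asIdeal : ℝ) ^ (-s) ≤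
      (Module.finrank ℤ (𝓞 K) : ℝ) * (T : ℝ) ^ (1 - s) := by
    refine (sum_le_sum (g := fun _ => (1 : ℝ)) fun v _ => ?_).trans ?_
    · have hq0 : Ideal.absNorm v.asIdeal ≠ 0 := by
        rw [Ne, Ideal.absNorm_eq_zero_iff]
        exact v.ne_bot
      have hq1 : (1 : ℝ) ≤ (Ideal.absNorm v.asIdeal : ℕ) := by exact_mod_cast Nat.one_le_iff_ne_zero.2 hq0
      exact Real.rpow_le_one_of_one_le_of_nonpos hq1 (by linarith)
    · rw [sum_const, nsmul_eq_mul, mul_one]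
      have h3 := card_high K T
      have h4 : (((VT K T).filter (fun v => ¬ (Ideal.absNorm v.asIdeal).Prime)).card : ℝ) ≤ (Module.finrank ℤ (𝓞 K) : ℝ) * (Nat.sqrt T : ℝ) := by exact_mod_cast h3
      refine h4.trans ?_
      apply mul_le_mul_of_nonneg_left _ (Nat.cast_nonneg _)
      refine Real.nat_sqrt_le_real_sqrt.trans ?_
      rw [Real.sqrt_eq_rpow]
      exact Real.rpow_le_rpow_of_exponent_le hT1 (by linarith)
  push_cast
  linarith

/-- the sums of small terms -/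
lemma pert {η : ℝ} (hη : 0 ≤ η) (hη1 : η ≤ 1 / 4) {n : ℕ} (hn : ∀ s : ℝ, 0 ≤ s → s ≤ 1 / 2 → ∀ T : ℕ, 1 ≤ T →
    ∑ v ∈ VT K T, (Ideal.absNorm v.asIdeal : ℝ) ^ (-s) ≤ n * (T : ℝ) ^ (1 - s)) (C₀ : ℝ) (hC₀ : 0 ≤ C₀) (u : ℕ) (hu : 1 ≤ u) :
    ∑ v ∈ VT K u, C₀ * (Ideal.absNorm v.asIdeal : ℝ) ^ (-(1 / 2 - η)) * Real.log (Ideal.absNorm v.asIdeal) ≤ (C₀ * n) * ((u : ℝ) ^ (1 / 2 + η) * Real.log u) := by
  have hu1 : (1 : ℝ) ≤ u := by exact_mod_cast hu
  have h1 : ∀ v ∈ VT K u, C₀ * (Ideal.absNorm v.asIdeal : ℝ) ^ (-(1 / 2 - η)) * Real.log (Ideal.absNorm v.asIdeal) ≤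
      (C₀ * Real.log u) * (Ideal.absNorm v.asIdeal : ℝ) ^ (-(1 / 2 - η)) := by
    intro v hv
    rw [mem_VT] at hv
    have hq0 : Ideal.absNorm v.asIdeal ≠ 0 := by
      rw [Ne, Ideal.absNorm_eq_zero_iff]
      exact v.ne_bot
    have hq1 : (1 : ℝ) ≤ (Ideal.absNorm v.asIdeal : ℕ) := by exact_mod_cast Nat.one_le_iff_ne_zero.2 hq0
    have hqx : ((Ideal.absNorm v.asIdeal : ℕ) : ℝ) ≤ u := by exact_mod_cast hv
    have hlx : Real.log (Ideal.absNorm v.asIdeal : ℕ) ≤ Real.log u := Real.log_le_log (by linarith) hqx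
    calc C₀ * (Ideal.absNorm v.asIdeal : ℝ) ^ (-(1 / 2 - η)) * Real.log (Ideal.absNorm v.asIdeal : ℕ) ≤
        C₀ * (Ideal.absNorm v.asIdeal : ℝ) ^ (-(1 / 2 - η)) * Real.log u := mul_le_mul_of_nonneg_left hlx (by positivity)
      _ = _ := by ring
  refine (sum_le_sum h1).trans ?_
  rw [← mul_sum]
  have h2 := hn (1 / 2 - η) (by linarith) (by linarith) u hu
  have h3 : 1 - (1 / 2 - η) = 1 / 2 + η := by ring
  rw [h3] at h2
  have hlu : 0 ≤ Real.log u := Real.log_nonneg hu1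
  calc C₀ * Real.log u * ∑ v ∈ VT K u, (Ideal.absNorm v.asIdeal : ℝ) ^ (-(1 / 2 - η)) ≤ C₀ * Real.log u * (n * (u : ℝ) ^ (1 / 2 + η)) :=
        mul_le_mul_of_nonneg_left h2 (by positivity)
    _ = _ := by ring

open Classical in
/-- the sums of small terms to the right -/
lemma pert_right {η : ℝ} (hη : 0 ≤ η) (hη1 : η ≤ 1 / 4) {n : ℕ} (hn : ∀ s : ℝ, 0 ≤ s → s ≤ 1 / 2 → ∀ T : ℕ, 1 ≤ T →
    ∑ v ∈ VT K T, (Ideal.absNorm v.asIdeal : ℝ) ^ (-s) ≤ n * (T : ℝ) ^ (1 - s)) (C₀ : ℝ) (hC₀ : 0 ≤ C₀) (δ : ℝ) (hδ : 0 < δ) (hδ1 : 1 / 2 + η + δ ≤ 1)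
    (ξ : HeightOneSpectrum (𝓞 K) → ℝ) (hξ : ∀ v, |ξ v| ≤ C₀ * (Ideal.absNorm v.asIdeal : ℝ) ^ (-(1 / 2 - η)))
    (ψ : HeightOneSpectrum (𝓞 K) → ℂ) (hψ : ∀ v, ‖ψ v‖ ≤ 1) (T T' : ℕ) (hT : 1 ≤ T) (hTT : T ≤ T') (z : ℂ) (hz : 1 / 2 + η + δ ≤ z.re) :
    ‖∑ v ∈ VT K T' \ VT K T, ψ v * ((ξ v * Real.log (Ideal.absNorm v.asIdeal) : ℝ) : ℂ) * ((Ideal.absNorm v.asIdeal : ℕ) : ℂ) ^ (-z)‖ ≤
      (3 + 2 * (1 / 2 + η + δ / 2) / (1 / 2 + η + δ - (1 / 2 + η + δ / 2))) * (C₀ * n * (2 / δ)) * (T : ℝ) ^ (1 / 2 + η + δ / 2 - z.re) := by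
  have h1 := right (K := K) (β := 1 / 2 + η + δ / 2) (ρ := 1 / 2 + η + δ) (by linarith) (by linarith) hδ1
    (fun v => C₀ * (Ideal.absNorm v.asIdeal : ℝ) ^ (-(1 / 2 - η)) * Real.log (Ideal.absNorm v.asIdeal)) (C₀ * n * (2 / δ)) (by positivity) T T' hT hTT
    (fun u hu1 _ => by
      have hu : 1 ≤ u := by omega
      have hu1 : (1 : ℝ) ≤ u := by exact_mod_cast hu
      have e1 := pert hη hη1 hn C₀ hC₀ u hu
      have e2 : 0 ≤ ∑ v ∈ VT K u, C₀ * (Ideal.absNorm v.asIdeal : ℝ) ^ (-(1 / 2 - η)) * Real.log (Ideal.absNorm v.asIdeal) :=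
        sum_nonneg fun v _ => mul_nonneg (by positivity) (Real.log_natCast_nonneg _)
      unfold PS
      rw [abs_of_nonneg e2]
      refine e1.trans ?_
      have e3 := Real.log_le_rpow_div (show (0 : ℝ) ≤ u by linarith) (show (0 : ℝ) < δ / 2 by positivity)
      have e4 : (u : ℝ) ^ (1 / 2 + η + δ / 2) = (u : ℝ) ^ (1 / 2 + η) * (u : ℝ) ^ (δ / 2) := by
        rw [← Real.rpow_add (by linarith)]
      rw [e4]
      calc C₀ * n * ((u : ℝ) ^ (1 / 2 + η) * Real.log u) ≤ C₀ * n * ((u : ℝ) ^ (1 / 2 + η) * ((u : ℝ) ^ (δ / 2) / (δ / 2))) := by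
            apply mul_le_mul_of_nonneg_left _ (by positivity)
            exact mul_le_mul_of_nonneg_left e3 (by positivity)
        _ = _ := by
            field_simp) z.re hz
  refine le_trans ?_ ((le_abs_self _).trans h1)
  refine (norm_sum_le _ _).trans (sum_le_sum fun v _ => ?_)
  have hq0 : Ideal.absNorm v.asIdeal ≠ 0 := by
    rw [Ne, Ideal.absNorm_eq_zero_iff]
    exact v.ne_bot
  have hq1 : (1 : ℝ) ≤ (Ideal.absNorm v.asIdeal : ℕ) := by exact_mod_cast Nat.one_le_iff_ne_zero.2 hq0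
  have hl0 : 0 ≤ Real.log (Ideal.absNorm v.asIdeal : ℕ) := Real.log_nonneg hq1
  rw [cpow_ch, norm_mul, Complex.norm_real, Real.norm_eq_abs, abs_mul, abs_mul, abs_of_nonneg hl0,
    abs_of_nonneg (by positivity : 0 ≤ (Ideal.absNorm v.asIdeal : ℝ) ^ (-z.re))]
  calc ‖Pool.Agent.N842.TQ.ch ψ z.im v‖ * (|ξ v| * Real.log (Ideal.absNorm v.asIdeal : ℕ) * (Ideal.absNorm v.asIdeal : ℝ) ^ (-z.re)) ≤
      1 * ((C₀ * (Ideal.absNorm v.asIdeal : ℝ) ^ (-(1 / 2 - η))) * Real.log (Ideal.absNorm v.asIdeal : ℕ) * (Ideal.absNorm v.asIdeal : ℝ) ^ (-z.re)) := by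
        apply mul_le_mul (Pool.Agent.N842.TQ.ch_le hψ _ _) _ (by positivity) zero_le_one
        apply mul_le_mul_of_nonneg_right _ (by positivity)
        exact mul_le_mul_of_nonneg_right (hξ v) hl0
    _ = _ := one_mul _

variable {D : ℕ} {η : ℝ}

open Classical in
/-- **The sums in vertical strips and the residue.** -/
theorem edge (S : Sys K D η) (hD : 1 ≤ D) (hη : 0 ≤ η) (hη1 : η ≤ 1 / 4) (cen : HeightOneSpectrum (𝓞 K) → ℝ)
    (α : ℝ) (hα : Tendsto (fun T : ℕ => (∑ v ∈ VT K T, cen v * Real.log (Ideal.absNorm v.asIdeal)) / T) atTop (𝓝 α)) (C₀ : ℝ) (hC₀ : 0 ≤ C₀)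
    (b g : ℕ) (ω : Fin g → 𝓞 K) (hω : (1 : 𝓞 K) ∈ Submodule.span ℤ (Set.range ω)) (hb : 2 ≤ b) (δ ε : ℝ) (hδ : 0 < δ) (hε : 0 < ε) (A B : ℕ) :
    ∃ M : ℝ, 1 ≤ M ∧ ∃ c : ℝ, 0 < c ∧ ∃ y₀ : ℕ, ∀ (L r : Fin (D * g) → ℕ) (y : ℕ), (∀ i, 2 * r i ≤ L i) → y₀ ≤ y →
    ∀ N' : Fin (D * g) → ℕ, (∀ i, N' i < b ^ L i) →
    ∀ f : Fin (D * g) → ℕ → ℕ, (∀ i j, f i j < b ∧ f i j ≠ digit b j (N' i)) →
    ∀ Ψ : Set (HeightOneSpectrum (𝓞 K) → ℂ), Ψ.Finite → Ψ.ncard ≤ y ^ B → (∀ ψ ∈ Ψ, ∀ v, ‖ψ v‖ ≤ 1) →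
    ∀ P : (Fin (D * g) → ℕ) → Prop,
    (∀ m : Fin (D * g) → ℕ, (∀ ξ : HeightOneSpectrum (𝓞 K) → ℝ, (∀ v, |ξ v| ≤ C₀ * (Ideal.absNorm v.asIdeal : ℝ) ^ (-(1 / 2 - η))) →
      ∀ T' : ℕ, (∀ i, (T' : ℝ) ≤ Real.exp (c * r i)) →
      (∀ ψ ∈ Ψ, ∀ T : ℕ, y ≤ T → T ≤ T' → ∀ z : ℂ, 1 / 2 + η + δ ≤ z.re → |z.im| ≤ (T : ℝ) ^ B →
      ‖∑ v ∈ VT K T' \ VT K T, ψ v * (((S.F v (cf ω m) + ξ v) * Real.log (Ideal.absNorm v.asIdeal) : ℝ) : ℂ) * ((Ideal.absNorm v.asIdeal : ℕ) : ℂ) ^ (-z)‖ ≤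
        (T : ℝ) ^ (1 / 2 + η + δ - z.re)) ∧
      (y ≤ T' → ∀ κ : ℝ, M / Real.log T' ≤ κ → κ ≤ 1 / (M * Real.log y) →
        |κ * ∑ v ∈ VT K T' \ VT K y, ((cen v + (S.F v (cf ω m) + ξ v)) * Real.log (Ideal.absNorm v.asIdeal)) * (Ideal.absNorm v.asIdeal : ℝ) ^ (-(1 + κ)) - α| ≤ ε)) → P m) →
    (exceptions b L r N' f P : ℝ) ≤ 1 / (y : ℝ) ^ A * ∏ i, ((L i).choose (r i) : ℝ) := by
  have hg : 1 ≤ g := by
    by_contra hcon
    have hg0 : g = 0 := by omega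
    subst hg0
    rw [Set.range_eq_empty, Submodule.span_empty, Submodule.mem_bot] at hω
    exact one_ne_zero hω
  obtain ⟨n, hn⟩ := sum_pow_all K
  obtain ⟨δ', hδ'⟩ : ∃ δ' : ℝ, δ' = min δ (1 / 8) / 2 := ⟨_, rfl⟩
  have hδ0 : 0 < δ' := by
    rw [hδ']
    exact half_pos (lt_min hδ (by norm_num))
  have hδ1 : 2 * δ' ≤ δ := by
    rw [hδ']
    have := min_le_left δ (1 / 8)
    linarith
  have hδ2 : δ' ≤ 1 / 16 := by
    rw [hδ']
    have := min_le_right δ (1 / 8)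
    linarith
  obtain ⟨M, hM⟩ : ∃ M : ℝ, M = 1 + 6 * |α| / ε := ⟨_, rfl⟩
  have hM1 : 1 ≤ M := by
    rw [hM]
    have : 0 ≤ 6 * |α| / ε := by positivity
    linarith
  obtain ⟨C₂, hC₂⟩ : ∃ C₂ : ℝ, C₂ = (3 + 2 * (1 / 2 + η + δ' / 2) / (1 / 2 + η + δ' - (1 / 2 + η + δ' / 2))) * (C₀ * n * (2 / δ')) := ⟨_, rfl⟩
  have hC₂0 : 0 ≤ C₂ := by
    have e1 : 1 / 2 + η + δ' - (1 / 2 + η + δ' / 2) = δ' / 2 := by ring
    rw [hC₂, e1]
    positivity
  obtain ⟨c, hc, y₀, hlaw⟩ := strips (K := K) S hD hη b g ω hω hg hb δ' hδ0 (by linarith) A (B + 1)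
  obtain ⟨T₁, hT₁⟩ := eventually_atTop.1 (ev_lim (1 / 2 + η + δ') (ε / 18) (by linarith) (by positivity))
  obtain ⟨T₂, hT₂⟩ := eventually_atTop.1 ((Metric.tendsto_nhds.1 hα) (ε / 18) (by positivity))
  obtain ⟨T₃, hT₃⟩ := eventually_atTop.1 (ev_fin (C₀ * n) (by positivity) η (1 / 8) (by norm_num))
  obtain ⟨T₄, hT₄⟩ := eventually_atTop.1 (ev_lim (1 / 2 + η + 1 / 8) (ε / 18) (by linarith) (by positivity))
  obtain ⟨T₅, hT₅⟩ := eventually_atTop.1 (((tendsto_rpow_atTop hδ0).comp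
    (tendsto_natCast_atTop_atTop (R := ℝ))).eventually (eventually_ge_atTop (1 + C₂)))
  refine ⟨M, hM1, c, hc, y₀ + T₁ + T₂ + T₃ + T₄ + T₅ + 3, fun L r y hrL hy N' hN' f hf Ψ hΨ hΨ2 hΨ1 P hP => ?_⟩
  refine hlaw L r y hrL (by omega) N' hN' f hf (insert (fun _ => 1) Ψ) (hΨ.insert _) ?_ ?_ P fun m hm => ?_
  · have h1 := Set.ncard_insert_le (fun _ : HeightOneSpectrum (𝓞 K) => (1 : ℂ)) Ψ
    have h3 : 1 ≤ y ^ B := Nat.one_le_pow _ _ (by omega)
    have h4 : y ^ (B + 1) = y ^ B * y := pow_succ _ _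
    nlinarith
  · intro ψ hψ v
    rcases hψ with rfl | hψ
    · rw [norm_one]
    · exact hΨ1 ψ hψ v
  · refine hP m fun ξ hξ T' hT' => ⟨?_, ?_⟩
    · intro ψ hψ T hyT hTT z hz1 hz2
      have hT1 : (1 : ℝ) ≤ T := by exact_mod_cast (by omega : 1 ≤ T)
      have hT0 : (0 : ℝ) < T := by linarith
      have h1 := (hm ψ (Set.mem_insert_of_mem _ hψ) T' hT').2 T hyT hTT z (by linarith) (hz2.trans (pow_le_pow_right₀ hT1 (Nat.le_succ B)))
      have h2 := pert_right hη hη1 hn C₀ hC₀ δ' hδ0 (by linarith) ξ hξ ψ (hΨ1 ψ hψ) T T' (by omega) hTT z (by linarith)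
      rw [← hC₂] at h2
      have h3 : ∑ v ∈ VT K T' \ VT K T, ψ v * (((S.F v (cf ω m) + ξ v) * Real.log (Ideal.absNorm v.asIdeal) : ℝ) : ℂ) * ((Ideal.absNorm v.asIdeal : ℕ) : ℂ) ^ (-z) =
          ∑ v ∈ VT K T' \ VT K T, ψ v * ((S.F v (cf ω m) * Real.log (Ideal.absNorm v.asIdeal) : ℝ) : ℂ) * ((Ideal.absNorm v.asIdeal : ℕ) : ℂ) ^ (-z) +
          ∑ v ∈ VT K T' \ VT K T, ψ v * ((ξ v * Real.log (Ideal.absNorm v.asIdeal) : ℝ) : ℂ) * ((Ideal.absNorm v.asIdeal : ℕ) : ℂ) ^ (-z) := by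
        rw [← sum_add_distrib]
        refine sum_congr rfl fun v _ => ?_
        push_cast
        ring
      rw [h3]
      refine (norm_add_le _ _).trans ((add_le_add h1 h2).trans ?_)
      have h4 : (T : ℝ) ^ (1 / 2 + η + δ' / 2 - z.re) ≤ (T : ℝ) ^ (1 / 2 + η + δ' - z.re) :=
        Real.rpow_le_rpow_of_exponent_le hT1 (by linarith)
      have h5 : (T : ℝ) ^ (1 / 2 + η + 2 * δ' - z.re) = (T : ℝ) ^ δ' * (T : ℝ) ^ (1 / 2 + η + δ' - z.re) := by
        rw [← Real.rpow_add hT0]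
        congr 1
        ring
      have h6 := hT₅ T (by omega)
      simp only [Function.comp] at h6
      have h7 : 0 < (T : ℝ) ^ (1 / 2 + η + δ' - z.re) := by positivity
      calc (T : ℝ) ^ (1 / 2 + η + δ' - z.re) + C₂ * (T : ℝ) ^ (1 / 2 + η + δ' / 2 - z.re) ≤
          (T : ℝ) ^ (1 / 2 + η + δ' - z.re) + C₂ * (T : ℝ) ^ (1 / 2 + η + δ' - z.re) := by
            have := mul_le_mul_of_nonneg_left h4 hC₂0
            linarith
        _ = (1 + C₂) * (T : ℝ) ^ (1 / 2 + η + δ' - z.re) := by ring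
        _ ≤ (T : ℝ) ^ δ' * (T : ℝ) ^ (1 / 2 + η + δ' - z.re) := mul_le_mul_of_nonneg_right h6 h7.le
        _ = (T : ℝ) ^ (1 / 2 + η + 2 * δ' - z.re) := h5.symm
        _ ≤ _ := Real.rpow_le_rpow_of_exponent_le hT1 (by linarith)
    · intro hyT κ hκ1 hκ2
      have hy3 : (3 : ℝ) ≤ y := by exact_mod_cast (by omega : 3 ≤ y)
      have hT3 : (3 : ℝ) ≤ T' := by exact_mod_cast (by omega : 3 ≤ T')
      have hly : 1 ≤ Real.log y := by
        rw [Real.le_log_iff_exp_le (by linarith)]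
        have := Real.exp_one_lt_d9
        linarith
      have hlT : 0 < Real.log T' := Real.log_pos (by linarith)
      have hκ0 : 0 < κ := lt_of_lt_of_le (by positivity) hκ1
      have hκ3 : κ ≤ 1 := by
        refine hκ2.trans ?_
        rw [div_le_one (by positivity)]
        nlinarith
      have hres := residue hM1 (fun v => (cen v + (S.F v (cf ω m) + ξ v)) * Real.log (Ideal.absNorm v.asIdeal)) α (ε / 6) (by positivity) y T' (by omega) hyT
        (fun u hyu huT => by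
          have hu1 : (1 : ℝ) ≤ u := by exact_mod_cast (by omega : 1 ≤ u)
          have hu0 : (0 : ℝ) < u := by linarith
          -- the main term
          have h2 := hT₂ u (by omega)
          rw [Real.dist_eq] at h2
          have h2' : |∑ v ∈ VT K u, cen v * Real.log (Ideal.absNorm v.asIdeal) - α * u| ≤ ε / 18 * u := by
            have e1 : ∑ v ∈ VT K u, cen v * Real.log (Ideal.absNorm v.asIdeal) - α * u =
                ((∑ v ∈ VT K u, cen v * Real.log (Ideal.absNorm v.asIdeal)) / u - α) * u := by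
              field_simp
            rw [e1, abs_mul, abs_of_pos hu0]
            exact mul_le_mul_of_nonneg_right h2.le hu0.le
          -- the fluctuations
          have h1 := (hm (fun _ => 1) (Set.mem_insert _ _) u (fun i => le_trans (by exact_mod_cast huT) (hT' i))).1 hyu
          have h1' : |∑ v ∈ VT K u, S.F v (cf ω m) * Real.log (Ideal.absNorm v.asIdeal)| ≤ ε / 18 * u := by
            have e1 : ∑ v ∈ VT K u, (1 : ℂ) * ((S.F v (cf ω m) * Real.log (Ideal.absNorm v.asIdeal) : ℝ) : ℂ) =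
                ((∑ v ∈ VT K u, S.F v (cf ω m) * Real.log (Ideal.absNorm v.asIdeal) : ℝ) : ℂ) := by
              rw [Complex.ofReal_sum]
              exact sum_congr rfl fun v _ => one_mul _
            rw [e1, Complex.norm_real, Real.norm_eq_abs] at h1
            refine h1.trans ?_
            have e2 := hT₁ u (by omega)
            rw [div_le_iff₀ hu0] at e2
            exact e2
          -- the perturbation
          have h3 := pert hη hη1 hn C₀ hC₀ u (by omega)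
          have h3' : |∑ v ∈ VT K u, ξ v * Real.log (Ideal.absNorm v.asIdeal)| ≤ ε / 18 * u := by
            have e0 : |∑ v ∈ VT K u, ξ v * Real.log (Ideal.absNorm v.asIdeal)| ≤
                ∑ v ∈ VT K u, C₀ * (Ideal.absNorm v.asIdeal : ℝ) ^ (-(1 / 2 - η)) * Real.log (Ideal.absNorm v.asIdeal) := by
              refine (abs_sum_le_sum_abs _ _).trans (sum_le_sum fun v _ => ?_)
              rw [abs_mul, abs_of_nonneg (Real.log_natCast_nonneg _)]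
              exact mul_le_mul_of_nonneg_right (hξ v) (Real.log_natCast_nonneg _)
            refine e0.trans (h3.trans ?_)
            have e1 := hT₃ u (by omega)
            have e2 := hT₄ u (by omega)
            rw [div_le_iff₀ hu0] at e2
            have e3 : 0 ≤ (u : ℝ) ^ (1 / 2 + η + 1 / 8 / 2) := by positivity
            linarith
          have e4 : PS (fun v => (cen v + (S.F v (cf ω m) + ξ v)) * Real.log (Ideal.absNorm v.asIdeal)) u - α * u =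
              (∑ v ∈ VT K u, cen v * Real.log (Ideal.absNorm v.asIdeal) - α * u) + ∑ v ∈ VT K u, S.F v (cf ω m) * Real.log (Ideal.absNorm v.asIdeal) +
              ∑ v ∈ VT K u, ξ v * Real.log (Ideal.absNorm v.asIdeal) := by
            have e5 : PS (fun v => (cen v + (S.F v (cf ω m) + ξ v)) * Real.log (Ideal.absNorm v.asIdeal)) u =
                ∑ v ∈ VT K u, cen v * Real.log (Ideal.absNorm v.asIdeal) + ∑ v ∈ VT K u, S.F v (cf ω m) * Real.log (Ideal.absNorm v.asIdeal) +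
              ∑ v ∈ VT K u, ξ v * Real.log (Ideal.absNorm v.asIdeal) := by
              unfold PS
              rw [← sum_add_distrib, ← sum_add_distrib]
              refine sum_congr rfl fun v _ => ?_
              ring
            rw [e5]
            ring
          rw [e4]
          have e6 := abs_add_le ((∑ v ∈ VT K u, cen v * Real.log (Ideal.absNorm v.asIdeal) - α * u) + ∑ v ∈ VT K u, S.F v (cf ω m) * Real.log (Ideal.absNorm v.asIdeal))
            (∑ v ∈ VT K u, ξ v * Real.log (Ideal.absNorm v.asIdeal))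
          have e7 := abs_add_le (∑ v ∈ VT K u, cen v * Real.log (Ideal.absNorm v.asIdeal) - α * u) (∑ v ∈ VT K u, S.F v (cf ω m) * Real.log (Ideal.absNorm v.asIdeal))
          linarith) hκ0 hκ1 hκ2 hκ3
      refine hres.trans ?_
      have h5 : |α| * (3 / M) ≤ ε / 2 := by
        have hM0 : 0 < M := by linarith
        rw [mul_div_assoc', div_le_iff₀ hM0, hM]
        have e1 : ε / 2 * (1 + 6 * |α| / ε) = ε / 2 + 3 * |α| := by
          field_simp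
          ring
        rw [e1]
        linarith
      linarith

end

end Pool.Agent.N842.TY
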