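import Pool.Agent.N842.TX.Law

/-!
# The law for abstract systems of functions
-/

set_option autoImplicit false

namespace Pool.Agent.N842.TY

open Finset NumberField IsDedekindDomain
open Pool.Agent.N842.HS (hv absNorm_hv VT mem_VT card_high sum_deg1 cf genV)
open Pool.Agent.N842.TX (card_box sum_pow ev_fin)
open Pool.Agent.Y57.FD (digit exceptions)

/-- a system of functions at the prime ideals of `K` which is small on average -/
structure Sys (K : Type) [Field K] [NumberField K] (D : ℕ) (η : ℝ) where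
  /-- the functions over the prime fields -/
  G : ∀ (p : ℕ) [Fact p.Prime], (Fin D → ZMod p) → ℝ
  /-- the functions at the prime ideals -/
  F : HeightOneSpectrum (𝓞 K) → (Fin D → 𝓞 K) → ℝ
  hv_eq : ∀ (p : ℕ) [Fact p.Prime] (φ : 𝓞 K →+* ZMod p) (c : Fin D → 𝓞 K), F (hv φ) c = G p (fun k => φ (c k))
  G_le : ∀ (p : ℕ) [Fact p.Prime] (u : Fin D → ZMod p), |G p u| ≤ (p : ℝ) ^ η
  F_le : ∀ (v : HeightOneSpectrum (𝓞 K)) (c : Fin D → 𝓞 K), |F v c| ≤ (Ideal.absNorm v.asIdeal : ℝ) ^ η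
  mean : ∃ C : ℝ, 0 ≤ C ∧ ∀ (p : ℕ) [Fact p.Prime], |(∑ u : Fin D → ZMod p, G p u) / (p : ℝ) ^ D| ≤ C * (p : ℝ) ^ (-(1 / 2 - η))

section
variable {K : Type} [Field K] [NumberField K] {D : ℕ} {η : ℝ} (S : Sys K D η)

/-- the means -/
noncomputable def mp (p : ℕ) [Fact p.Prime] : ℝ := (∑ u : Fin D → ZMod p, S.G p u) / (p : ℝ) ^ D

open Classical in
/-- the means for all numbers -/
noncomputable def mpn (n : ℕ) : ℝ := if h : n.Prime then @mp K _ _ D η S n ⟨h⟩ else 0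

lemma mpn_eq (p : ℕ) [hp : Fact p.Prime] : mpn S p = mp S p := by
  unfold mpn
  rw [dif_pos hp.out]

lemma mp_le' (p : ℕ) [hp : Fact p.Prime] : |mp S p| ≤ (p : ℝ) ^ η := by
  have hp0 : (0 : ℝ) < p := by exact_mod_cast hp.out.pos
  unfold mp
  rw [abs_div, abs_of_pos (by positivity : (0 : ℝ) < (p : ℝ) ^ D), div_le_iff₀ (by positivity)]
  refine (abs_sum_le_sum_abs _ _).trans ((sum_le_sum fun u _ => S.G_le p u).trans ?_)
  rw [sum_const, nsmul_eq_mul, card_box, mul_comm]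

open Classical in
/-- **The law for abstract systems.** -/
theorem law (S : Sys K D η) (hD : 1 ≤ D) (hη : 0 ≤ η) (hη1 : η ≤ 1 / 2)
    (b g : ℕ) (ω : Fin g → 𝓞 K) (hω : (1 : 𝓞 K) ∈ Submodule.span ℤ (Set.range ω)) (hg : 1 ≤ g) (hb : 2 ≤ b) (δ : ℝ) (hδ : 0 < δ) (A B : ℕ) :
    ∃ c : ℝ, 0 < c ∧ ∃ y₀ : ℕ, ∀ (L r : Fin (D * g) → ℕ) (y : ℕ), (∀ i, 2 * r i ≤ L i) → y₀ ≤ y →
    ∀ N' : Fin (D * g) → ℕ, (∀ i, N' i < b ^ L i) →
    ∀ f : Fin (D * g) → ℕ → ℕ, (∀ i j, f i j < b ∧ f i j ≠ digit b j (N' i)) →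
    ∀ W : ℕ → Set (HeightOneSpectrum (𝓞 K) → ℝ), (∀ T, (W T).Finite ∧ (W T).ncard ≤ T ^ B) → (∀ T, ∀ w ∈ W T, ∀ v, |w v| ≤ 1) →
    ∀ P : (Fin (D * g) → ℕ) → Prop,
    (∀ m : Fin (D * g) → ℕ, (∀ T : ℕ, y ≤ T → (∀ i, (T : ℝ) ≤ Real.exp (c * r i)) → ∀ w ∈ W T,
      |∑ v ∈ VT K T, w v * (S.F v (cf ω m) * Real.log (Ideal.absNorm v.asIdeal))| ≤
        (T : ℝ) ^ (1 / 2 + η + δ)) → P m) →
    (exceptions b L r N' f P : ℝ) ≤ 1 / (y : ℝ) ^ A * ∏ i, ((L i).choose (r i) : ℝ) := by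
  obtain ⟨C, hC0, hC⟩ := S.mean
  obtain ⟨n₁, hn₁⟩ := sum_pow K
  obtain ⟨c, hc, y₀, hgen⟩ := genV b g D ω hω hb (Nat.mul_pos hD hg) (δ / 2) (by positivity) A B
    (univ : Finset Unit) (fun _ p _ u => S.G p u - mp S p) (fun _ => 0) η hη
    (fun _ _ => ⟨2, by norm_num, fun p hp => by
      have hp0 : (0 : ℝ) < p := by exact_mod_cast hp.out.pos
      constructor
      · intro u
        have e1 := S.G_le p u
        have e2 := mp_le' S p
        refine (abs_sub _ _).trans ?_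
        linarith
      · rw [abs_zero]
        positivity⟩)
    (fun _ _ => ⟨0, le_rfl, fun p hp => by
      have hp0 : (0 : ℝ) < p := by exact_mod_cast hp.out.pos
      have e1 : (∑ u : Fin D → ZMod p, (S.G p u - mp S p)) / (p : ℝ) ^ D = 0 := by
        rw [sum_sub_distrib, sum_const, nsmul_eq_mul, card_box]
        unfold mp
        field_simp
        ring
      rw [e1]
      simp⟩)
  obtain ⟨T₀, hT₀⟩ := Filter.eventually_atTop.1 (ev_fin (C * (n₁ * 2) + Module.finrank ℤ (𝓞 K)) (by positivity) η δ hδ)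
  refine ⟨c, hc, y₀ + T₀ + 1, fun L r y hrL hy N' hN' f hf W hW hW1 P hP => ?_⟩
  refine hgen L r y hrL (by omega) N' hN' f hf W hW hW1 P fun m hm => ?_
  refine hP m fun T hyT hTr w hw => ?_
  have h0 := hm T hyT hTr w hw () (mem_univ _) (fun v => S.F v (cf ω m) - mpn S (Ideal.absNorm v.asIdeal)) (fun p _ φ => by
    rw [S.hv_eq, absNorm_hv, mpn_eq])
  have hT1 : (1 : ℝ) ≤ T := by exact_mod_cast (by omega : 1 ≤ T)
  have hT0 : (0 : ℝ) < T := by linarith
  have hlog : 0 ≤ Real.log T := Real.log_nonneg hT1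
  have hnorm : ∀ v ∈ VT K T, (Ideal.absNorm v.asIdeal : ℝ) ≤ T ∧ (1 : ℝ) ≤ Ideal.absNorm v.asIdeal := by
    intro v hv1
    rw [mem_VT] at hv1
    refine ⟨by exact_mod_cast hv1, ?_⟩
    have : Ideal.absNorm v.asIdeal ≠ 0 := by
      rw [Ne, Ideal.absNorm_eq_zero_iff]
      exact v.ne_bot
    exact_mod_cast Nat.one_le_iff_ne_zero.2 this
  have hlogv : ∀ v ∈ VT K T, |Real.log (Ideal.absNorm v.asIdeal)| ≤ Real.log T := by
    intro v hv1
    obtain ⟨e1, e2⟩ := hnorm v hv1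
    rw [abs_of_nonneg (Real.log_nonneg e2)]
    exact Real.log_le_log (by linarith) e1
  have hsplit := sum_filter_add_sum_filter_not (VT K T) (fun v => (Ideal.absNorm v.asIdeal).Prime)
    (fun v => w v * (S.F v (cf ω m) * Real.log (Ideal.absNorm v.asIdeal)))
  rw [← hsplit]
  have hdeg1 : ∑ v ∈ (VT K T).filter (fun v => (Ideal.absNorm v.asIdeal).Prime), w v * (S.F v (cf ω m) * Real.log (Ideal.absNorm v.asIdeal)) =
      ∑ v ∈ (VT K T).filter (fun v => (Ideal.absNorm v.asIdeal).Prime), w v * ((S.F v (cf ω m) - mpn S (Ideal.absNorm v.asIdeal) - 0) * Real.log (Ideal.absNorm v.asIdeal)) +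
      ∑ v ∈ (VT K T).filter (fun v => (Ideal.absNorm v.asIdeal).Prime), w v * (mpn S (Ideal.absNorm v.asIdeal) * Real.log (Ideal.absNorm v.asIdeal)) := by
    rw [← sum_add_distrib]
    refine sum_congr rfl fun v _ => ?_
    ring
  -- the means
  have hmid : |∑ v ∈ (VT K T).filter (fun v => (Ideal.absNorm v.asIdeal).Prime), w v * (mpn S (Ideal.absNorm v.asIdeal) * Real.log (Ideal.absNorm v.asIdeal))| ≤
      (C * (n₁ * 2)) * ((T : ℝ) ^ (1 / 2 + η) * Real.log T) := by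
    refine (abs_sum_le_sum_abs _ _).trans ((sum_le_sum (g := fun v => (C * Real.log T) * (Ideal.absNorm v.asIdeal : ℝ) ^ (-(1 / 2 - η))) fun v hv1 => ?_).trans ?_)
    · rw [mem_filter] at hv1
      rw [abs_mul, abs_mul]
      have hF : Fact (Ideal.absNorm v.asIdeal).Prime := ⟨hv1.2⟩
      have e1 : |mp S (Ideal.absNorm v.asIdeal)| ≤ _ := hC (Ideal.absNorm v.asIdeal)
      rw [← mpn_eq] at e1
      have e2 := hlogv v hv1.1
      calc |w v| * (|mpn S (Ideal.absNorm v.asIdeal)| * |Real.log (Ideal.absNorm v.asIdeal)|) ≤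
          1 * ((C * (Ideal.absNorm v.asIdeal : ℝ) ^ (-(1 / 2 - η))) * Real.log T) := by
            apply mul_le_mul (hW1 T w hw v) _ (by positivity) zero_le_one
            exact mul_le_mul e1 e2 (abs_nonneg _) (by positivity)
        _ = _ := by ring
    · rw [← mul_sum]
      have e1 := hn₁ (1 / 2 - η) (by linarith) (by linarith) T
      have e2 : 1 - (1 / 2 - η) = 1 / 2 + η := by ring
      rw [e2] at e1
      calc (C * Real.log T) * ∑ v ∈ (VT K T).filter (fun v => (Ideal.absNorm v.asIdeal).Prime), (Ideal.absNorm v.asIdeal : ℝ) ^ (-(1 / 2 - η)) ≤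
          (C * Real.log T) * (n₁ * (2 * (T : ℝ) ^ (1 / 2 + η))) := mul_le_mul_of_nonneg_left e1 (by positivity)
        _ = _ := by ring
  -- the prime ideals of higher degree
  have hhigh : |∑ v ∈ (VT K T).filter (fun v => ¬ (Ideal.absNorm v.asIdeal).Prime), w v * (S.F v (cf ω m) * Real.log (Ideal.absNorm v.asIdeal))| ≤
      (Module.finrank ℤ (𝓞 K) : ℝ) * ((T : ℝ) ^ (1 / 2 + η) * Real.log T) := by
    refine (abs_sum_le_sum_abs _ _).trans ((sum_le_sum (g := fun _ => (T : ℝ) ^ η * Real.log T) fun v hv1 => ?_).trans ?_)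
    · rw [mem_filter] at hv1
      obtain ⟨hnT, hn1⟩ := hnorm v hv1.1
      have e2 := S.F_le v (cf ω m)
      have e3 : (Ideal.absNorm v.asIdeal : ℝ) ^ η ≤ (T : ℝ) ^ η := Real.rpow_le_rpow (by linarith) hnT hη
      have e6 := hlogv v hv1.1
      rw [abs_mul, abs_mul]
      calc |w v| * (|S.F v (cf ω m)| * |Real.log (Ideal.absNorm v.asIdeal)|) ≤ 1 * ((T : ℝ) ^ η * Real.log T) := by
            apply mul_le_mul (hW1 T w hw v) _ (by positivity) zero_le_one
            exact mul_le_mul (e2.trans e3) e6 (abs_nonneg _) (by positivity)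
        _ = _ := one_mul _
    · rw [sum_const, nsmul_eq_mul]
      have e1 := card_high K T
      have e2 : (((VT K T).filter (fun v => ¬ (Ideal.absNorm v.asIdeal).Prime)).card : ℝ) ≤ (Module.finrank ℤ (𝓞 K) : ℝ) * Real.sqrt T := by
        have e3 : (((VT K T).filter (fun v => ¬ (Ideal.absNorm v.asIdeal).Prime)).card : ℝ) ≤ (Module.finrank ℤ (𝓞 K) : ℝ) * (Nat.sqrt T : ℝ) := by exact_mod_cast e1
        refine e3.trans ?_
        apply mul_le_mul_of_nonneg_left _ (Nat.cast_nonneg _)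
        exact Real.nat_sqrt_le_real_sqrt
      have e4 : (T : ℝ) ^ (1 / 2 + η) = Real.sqrt T * (T : ℝ) ^ η := by
        rw [Real.sqrt_eq_rpow, ← Real.rpow_add hT0]
      calc (((VT K T).filter (fun v => ¬ (Ideal.absNorm v.asIdeal).Prime)).card : ℝ) * ((T : ℝ) ^ η * Real.log T) ≤
          ((Module.finrank ℤ (𝓞 K) : ℝ) * Real.sqrt T) * ((T : ℝ) ^ η * Real.log T) := mul_le_mul_of_nonneg_right e2 (by positivity)
        _ = _ := by
          rw [e4]
          ring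
  rw [hdeg1]
  have hfin := hT₀ T (by omega)
  have habs := abs_add_le (∑ v ∈ (VT K T).filter (fun v => (Ideal.absNorm v.asIdeal).Prime), w v * ((S.F v (cf ω m) - mpn S (Ideal.absNorm v.asIdeal) - 0) * Real.log (Ideal.absNorm v.asIdeal)))
    (∑ v ∈ (VT K T).filter (fun v => (Ideal.absNorm v.asIdeal).Prime), w v * (mpn S (Ideal.absNorm v.asIdeal) * Real.log (Ideal.absNorm v.asIdeal)))
  have habs2 := abs_add_le (∑ v ∈ (VT K T).filter (fun v => (Ideal.absNorm v.asIdeal).Prime), w v * ((S.F v (cf ω m) - mpn S (Ideal.absNorm v.asIdeal) - 0) * Real.log (Ideal.absNorm v.asIdeal)) +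
    ∑ v ∈ (VT K T).filter (fun v => (Ideal.absNorm v.asIdeal).Prime), w v * (mpn S (Ideal.absNorm v.asIdeal) * Real.log (Ideal.absNorm v.asIdeal)))
    (∑ v ∈ (VT K T).filter (fun v => ¬ (Ideal.absNorm v.asIdeal).Prime), w v * (S.F v (cf ω m) * Real.log (Ideal.absNorm v.asIdeal)))
  rw [add_mul (C * (n₁ * 2))] at hfin
  linarith

end

end Pool.Agent.N842.TY
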