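import Pool.Agent.N842.TY.Edge
import Pool.Agent.N842.TX.Cnt

/-!
# Surfaces in the projective space which contain given lines of a plane
-/

set_option autoImplicit false

namespace Pool.Agent.N842.TY

open Finset NumberField IsDedekindDomain Filter Topology
open Pool.Agent.N842.HS (nuz one_le_sq sq_mul Res rho card_Res res_iso hv absNorm_hv VT mem_VT cf)
open Pool.Agent.N842.TX (Full nb lo gp ni ni_congr tc tc_le mean_tc nf ni_le roots_tendsto Fv Fv_hv Fv_le Gp Gp_le mp_le Exp3 full_exp pit_tendsto)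

/-- the exponents -/
abbrev ExpS (d : ℕ) : Type := {α : Fin 3 → ℕ // α 0 + α 1 + α 2 < d}

section
variable {D d : ℕ} (e : Fin D ≃ ExpS d) (G : Polynomial ℤ)

lemma full_expS {h : ℕ} (hd : h ≤ d) : Full (fun k => (e k).1) h where
  inj := fun k k' hk => e.injective (Subtype.ext hk)
  full := by
    intro α hα
    rw [Fin.sum_univ_three] at hα
    refine ⟨e.symm ⟨α, by omega⟩, ?_⟩
    show (e (e.symm ⟨α, _⟩)).1 = α
    rw [Equiv.apply_symm_apply]

/-- the values of the polynomials -/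
def valS (κ : Type) [Field κ] (u : Fin D → κ) (P : Fin 3 → κ) : κ :=
  ∑ j ∈ range (d + 1), (G.coeff j : κ) * (P 0 ^ (d - j) * P 1 ^ j) + ∑ k, u k * ∏ i, P i ^ (e k).1 i

/-- the number of the points of the surface -/
noncomputable def ptsS (κ : Type) [Field κ] (u : Fin D → κ) : ℕ :=
  Nat.card {P : Fin 3 → κ // valS e G κ u P = 0} + (Nat.card κ * ni G κ + 1)

/-- the trace on the second cohomology, normalised -/
noncomputable def trS (κ : Type) [Field κ] (u : Fin D → κ) : ℝ :=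
  ((ptsS e G κ u : ℝ) - (Nat.card κ : ℝ) ^ 2 - 1) / Nat.card κ

lemma valS_congr {κ κ' : Type} [Field κ] [Field κ'] (σ : κ ≃+* κ') (u : Fin D → κ) (P : Fin 3 → κ) :
    valS e G κ' (fun k => σ (u k)) (fun i => σ (P i)) = σ (valS e G κ u P) := by
  unfold valS
  simp only [map_add, map_sum, map_mul, map_pow, map_intCast, map_prod]

lemma trS_congr {κ κ' : Type} [Field κ] [Field κ'] (σ : κ ≃+* κ') (u : Fin D → κ) :
    trS e G κ' (fun k => σ (u k)) = trS e G κ u := by
  have h3 : Nat.card κ' = Nat.card κ := (Nat.card_congr σ.toEquiv).symm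
  have h4 : ptsS e G κ' (fun k => σ (u k)) = ptsS e G κ u := by
    unfold ptsS
    rw [ni_congr G σ, h3]
    congr 1
    symm
    refine Nat.card_congr (Equiv.subtypeEquiv (Equiv.piCongrRight fun _ => σ.toEquiv) fun P => ?_)
    show valS e G κ u P = 0 ↔ valS e G κ' (fun k => σ (u k)) (fun i => σ (P i)) = 0
    rw [valS_congr, map_eq_zero_iff _ σ.injective]
  unfold trS
  rw [h3, h4]

lemma trS_zmod (p : ℕ) [hp : Fact p.Prime] (u : Fin D → ZMod p) :
    trS e G (ZMod p) u = ni G (ZMod p) + nb (fun k => (e k).1) p (gp d G p) u := by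
  classical
  have hp0 : (0 : ℝ) < p := by exact_mod_cast hp.out.pos
  have hs1 := one_le_sq p
  have hs0 : 0 < Real.sqrt p := by linarith
  have h2 : Real.sqrt p ^ 2 = p := by rw [sq, sq_mul p]
  -- the number of the points
  obtain ⟨Z, hZ⟩ : ∃ Z : ℝ, Z = ∑ y : Fin 3 → ZMod p, (if gp d G p y + lo (fun k => (e k).1) u y = 0 then (1 : ℝ) else 0) := ⟨_, rfl⟩
  have e1 : (Nat.card {P : Fin 3 → ZMod p // valS e G (ZMod p) u P = 0} : ℝ) = Z := by
    rw [hZ, Nat.card_eq_fintype_card, Fintype.card_subtype, card_filter]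
    push_cast
    refine sum_congr rfl fun P _ => ?_
    rfl
  have e3 : ∑ x : Fin 3 → ZMod p, nuz p (gp d G p x + lo (fun k => (e k).1) u x) = Real.sqrt p * (Z - (p : ℝ) ^ 2) := by
    unfold nuz
    rw [← mul_sum, sum_sub_distrib, ← hZ, sum_const, card_univ, Fintype.card_fun, Fintype.card_fin, ZMod.card, nsmul_eq_mul]
    congr 2
    push_cast
    field_simp
  unfold nb
  rw [e3]
  have e4 : Real.sqrt p ^ 3 = p * Real.sqrt p := by rw [pow_succ, h2]
  have e5 : Real.sqrt p * (Z - (p : ℝ) ^ 2) / Real.sqrt p ^ 3 = Z / p - p := by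
    rw [e4]
    field_simp
  rw [e5]
  unfold trS ptsS
  rw [Nat.card_zmod]
  push_cast
  rw [e1]
  field_simp
  ring

end

section
variable {K : Type} [Field K] [NumberField K] {D d E : ℕ}

/-- the system of the pencils of plane curves -/
noncomputable def penSys (e : Fin D ≃ Exp3 d E) (G : Polynomial ℤ) {h : ℕ} (hh : 2 ≤ h) (hev : Even h) (hd : h ≤ d) (hE : h ≤ E + 1) :
    Sys K D (1 / (2 * (h : ℝ))) where
  G := fun p _ u => Gp e G (1 / (2 * (h : ℝ))) p u
  F := fun v c => Fv e G (1 / (2 * (h : ℝ))) v c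
  hv_eq := fun _ _ φ c => Fv_hv e G _ φ c
  G_le := fun p _ u => Gp_le e G _ p u
  F_le := fun v c => Fv_le e G _ v c
  mean := mp_le e G hh hev hd hE

/-- the truncated traces -/
noncomputable def Fs (e : Fin D ≃ ExpS d) (G : Polynomial ℤ) (η : ℝ) (v : HeightOneSpectrum (𝓞 K)) (c : Fin D → 𝓞 K) : ℝ :=
  tc ((Nat.card (Res v) : ℝ) ^ η) (trS e G (Res v) (fun k => rho v (c k)) - ni G (Res v))

/-- the system of the surfaces -/
noncomputable def srfSys (e : Fin D ≃ ExpS d) (G : Polynomial ℤ) {h : ℕ} (hh : 2 ≤ h) (hev : Even h) (hd : h ≤ d) :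
    Sys K D (1 / (2 * (h : ℝ))) where
  G := fun p _ u => tc ((p : ℝ) ^ (1 / (2 * (h : ℝ)))) (nb (fun k => (e k).1) p (gp d G p) u)
  F := fun v c => Fs e G (1 / (2 * (h : ℝ))) v c
  hv_eq := by
    intro p hp φ c
    obtain ⟨σ, hσ⟩ := res_iso φ
    unfold Fs
    rw [card_Res, absNorm_hv, ← trS_congr e G σ, ← ni_congr G σ]
    simp only [hσ]
    rw [trS_zmod, add_sub_cancel_left]
  G_le := fun p _ u => tc_le (by positivity) _
  F_le := by
    intro v c
    rw [← card_Res]
    exact tc_le (by positivity) _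
  mean := by
    obtain ⟨C, hC0, hC⟩ := mean_tc (full_expS e hd) (by norm_num) hh hev
    exact ⟨C, hC0, fun p hp => hC p (gp d G p)⟩

/-- the limit for the pencils -/
lemma pen_lim (G : Polynomial ℤ) (hG : G.Monic) : Tendsto (fun T : ℕ => (∑ v ∈ VT K T, ((1 : ℝ) - ni G (Res v)) * Real.log (Ideal.absNorm v.asIdeal)) / T) atTop
    (𝓝 (-((nf K G : ℝ) - 1))) := by
  have h1 := (pit_tendsto K).sub (roots_tendsto K G hG)
  have h2 : (1 : ℝ) - nf K G = -((nf K G : ℝ) - 1) := by ring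
  rw [h2] at h1
  refine h1.congr fun T => ?_
  rw [← sub_div, ← sum_sub_distrib]
  congr 1
  refine sum_congr rfl fun v _ => ?_
  ring

/-- the number of the exponents is positive -/
lemma one_le_pen (e : Fin D ≃ Exp3 d E) {h : ℕ} (hh : 2 ≤ h) (hd : h ≤ d) (hE : h ≤ E + 1) : 1 ≤ D := by
  obtain ⟨k, _⟩ := (full_exp e hd hE).full (fun _ => 0) (by simp; omega)
  have := k.2
  omega

lemma one_le_srf (e : Fin D ≃ ExpS d) {h : ℕ} (hh : 2 ≤ h) (hd : h ≤ d) : 1 ≤ D := by
  obtain ⟨k, _⟩ := (full_expS e hd).full (fun _ => 0) (by simp; omega)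
  have := k.2
  omega

lemma eta_bounds {h : ℕ} (hh : 2 ≤ h) : (0 : ℝ) ≤ 1 / (2 * (h : ℝ)) ∧ (1 : ℝ) / (2 * (h : ℝ)) ≤ 1 / 4 := by
  have hh0 : (2 : ℝ) ≤ h := by exact_mod_cast hh
  refine ⟨by positivity, ?_⟩
  apply one_div_le_one_div_of_le (by norm_num)
  linarith

end

end Pool.Agent.N842.TY
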