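import Pool.Agent.N842.TY.Gen
import Pool.Agent.N842.TY.Ab
import Pool.Agent.N842.TQ.Lw

/-!
# The sums in vertical strips
-/

set_option autoImplicit false

namespace Pool.Agent.N842.TY

open Finset NumberField IsDedekindDomain
open Pool.Agent.N842.HS (VT mem_VT card_high cf)
open Pool.Agent.N842.TX (sum_pow)
open Pool.Agent.N842.TQ (part part_le part_sum part_mul norm_le_parts ch ch_le ch_diff)
open Pool.Agent.Y57.FD (digit exceptions)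

section
variable {K : Type} [Field K] [NumberField K]

/-- the weights -/
noncomputable def wg (x : ℕ) (z : (HeightOneSpectrum (𝓞 K) → ℂ) × ℤ × Bool) (v : HeightOneSpectrum (𝓞 K)) : ℝ :=
  part z.2.2 (ch z.1 ((z.2.1 : ℝ) / (x : ℝ) ^ 2) v)

/-- the sets of weights -/
noncomputable def WT (Ψ : Set (HeightOneSpectrum (𝓞 K) → ℂ)) (B y x : ℕ) : Set (HeightOneSpectrum (𝓞 K) → ℝ) :=
  open Classical in if y ≤ x ∧ 2 ≤ x then wg x '' (Ψ ×ˢ ((↑(Finset.Icc (-((x : ℤ) ^ (B + 2))) ((x : ℤ) ^ (B + 2))) : Set ℤ) ×ˢ (Set.univ : Set Bool))) else ∅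

lemma WT_card (Ψ : Set (HeightOneSpectrum (𝓞 K) → ℂ)) (hΨ : Ψ.Finite) (B y : ℕ) (hΨ2 : Ψ.ncard ≤ y ^ B) (x : ℕ) :
    (WT Ψ B y x).Finite ∧ (WT Ψ B y x).ncard ≤ x ^ (2 * B + 5) := by
  classical
  unfold WT
  split_ifs with h
  · have hfin : (Ψ ×ˢ ((↑(Finset.Icc (-((x : ℤ) ^ (B + 2))) ((x : ℤ) ^ (B + 2))) : Set ℤ) ×ˢ (Set.univ : Set Bool))).Finite :=
      hΨ.prod ((Finset.finite_toSet _).prod Set.finite_univ)
    refine ⟨hfin.image _, (Set.ncard_image_le hfin).trans ?_⟩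
    rw [Set.ncard_prod, Set.ncard_prod, Set.ncard_univ, Nat.card_eq_fintype_card, Fintype.card_bool, Set.ncard_coe_finset, Int.card_Icc]
    have h1 : ((x : ℤ) ^ (B + 2) + 1 - -((x : ℤ) ^ (B + 2))).toNat = 2 * x ^ (B + 2) + 1 := by
      have h2 : (x : ℤ) ^ (B + 2) + 1 - -((x : ℤ) ^ (B + 2)) = ((2 * x ^ (B + 2) + 1 : ℕ) : ℤ) := by
        push_cast
        ring
      rw [h2, Int.toNat_natCast]
    rw [h1]
    have h3 : 1 ≤ x ^ (B + 2) := Nat.one_le_pow _ _ (by omega)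
    have h4 : 8 ≤ x ^ 3 := by
      calc 8 = 2 ^ 3 := by norm_num
        _ ≤ x ^ 3 := Nat.pow_le_pow_left h.2 3
    calc Ψ.ncard * ((2 * x ^ (B + 2) + 1) * 2) ≤ x ^ B * (x ^ 3 * x ^ (B + 2)) := by
          apply Nat.mul_le_mul (hΨ2.trans (Nat.pow_le_pow_left h.1 B))
          nlinarith
      _ = x ^ (2 * B + 5) := by ring
  · exact ⟨Set.finite_empty, by rw [Set.ncard_empty]; exact Nat.zero_le _⟩

lemma WT_le (Ψ : Set (HeightOneSpectrum (𝓞 K) → ℂ)) (hΨ1 : ∀ ψ ∈ Ψ, ∀ v, ‖ψ v‖ ≤ 1) (B y x : ℕ)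
    (w : HeightOneSpectrum (𝓞 K) → ℝ) (hw : w ∈ WT Ψ B y x) (v : HeightOneSpectrum (𝓞 K)) : |w v| ≤ 1 := by
  classical
  unfold WT at hw
  split_ifs at hw with h
  · obtain ⟨z, hz, rfl⟩ := hw
    exact (part_le _ _).trans (ch_le (hΨ1 z.1 hz.1) _ _)
  · exact absurd hw (Set.notMem_empty _)

lemma WT_mem (Ψ : Set (HeightOneSpectrum (𝓞 K) → ℂ)) (B y x : ℕ) (hyx : y ≤ x) (hx : 2 ≤ x) (ψ : HeightOneSpectrum (𝓞 K) → ℂ) (hψ : ψ ∈ Ψ)
    (j : ℤ) (hj : |j| ≤ (x : ℤ) ^ (B + 2)) (κ : Bool) : wg x (ψ, j, κ) ∈ WT Ψ B y x := by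
  classical
  unfold WT
  rw [if_pos ⟨hyx, hx⟩]
  refine ⟨(ψ, j, κ), ⟨hψ, ?_, Set.mem_univ _⟩, rfl⟩
  rw [Finset.coe_Icc, Set.mem_Icc]
  exact abs_le.1 hj

/-- the point of the grid -/
lemma grid_pt (B x : ℕ) (hx : 1 ≤ x) (τ : ℝ) (hτ : |τ| ≤ (x : ℝ) ^ B) : ∃ j : ℤ, |j| ≤ (x : ℤ) ^ (B + 2) ∧ |τ - (j : ℝ) / (x : ℝ) ^ 2| ≤ 1 / (x : ℝ) ^ 2 := by
  have hx0 : (0 : ℝ) < x := by exact_mod_cast (by omega : 0 < x)
  obtain ⟨j, hj⟩ : ∃ j : ℤ, j = ⌊τ * (x : ℝ) ^ 2⌋ := ⟨_, rfl⟩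
  have hj1 : (j : ℝ) ≤ τ * (x : ℝ) ^ 2 := by rw [hj]; exact Int.floor_le _
  have hj2 : τ * (x : ℝ) ^ 2 < j + 1 := by rw [hj]; exact Int.lt_floor_add_one _
  refine ⟨j, ?_, ?_⟩
  · have h1 := abs_le.1 hτ
    have h2 : τ * (x : ℝ) ^ 2 ≤ (x : ℝ) ^ (B + 2) := by
      rw [pow_add]
      exact mul_le_mul_of_nonneg_right h1.2 (by positivity)
    have h3 : -(x : ℝ) ^ (B + 2) ≤ τ * (x : ℝ) ^ 2 := by
      rw [pow_add]
      have := mul_le_mul_of_nonneg_right h1.1 (by positivity : (0 : ℝ) ≤ (x : ℝ) ^ 2)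
      linarith
    rw [abs_le]
    constructor
    · rw [hj]
      apply Int.le_floor.2
      push_cast
      exact h3
    · have h4 : (j : ℝ) ≤ (x : ℝ) ^ (B + 2) := hj1.trans h2
      exact_mod_cast h4
  · have h1 : τ - (j : ℝ) / (x : ℝ) ^ 2 = (τ * (x : ℝ) ^ 2 - j) / (x : ℝ) ^ 2 := by
      field_simp
    rw [h1, abs_div, abs_of_pos (by positivity : (0 : ℝ) < (x : ℝ) ^ 2)]
    apply div_le_div_of_nonneg_right _ (by positivity)
    rw [abs_le]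
    constructor <;> linarith

variable (K) in
/-- the number of the prime ideals -/
lemma card_VT : ∃ n : ℕ, ∀ T : ℕ, 1 ≤ T → ((VT K T).card : ℝ) ≤ n * T := by
  classical
  obtain ⟨n₁, hn₁⟩ := sum_pow K
  refine ⟨n₁ * 2 + Module.finrank ℤ (𝓞 K), fun T hT => ?_⟩
  have hT1 : (1 : ℝ) ≤ T := by exact_mod_cast hT
  have h1 := hn₁ 0 le_rfl (by norm_num) T
  rw [neg_zero, sub_zero, Real.rpow_one] at h1
  have h2 : ∑ v ∈ (VT K T).filter (fun v => (Ideal.absNorm v.asIdeal).Prime), (Ideal.absNorm v.asIdeal : ℝ) ^ (0 : ℝ) =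
      (((VT K T).filter (fun v => (Ideal.absNorm v.asIdeal).Prime)).card : ℝ) := by
    simp only [Real.rpow_zero]
    rw [sum_const, nsmul_eq_mul, mul_one]
  rw [h2] at h1
  have h3 := card_high K T
  have h4 : (((VT K T).filter (fun v => ¬ (Ideal.absNorm v.asIdeal).Prime)).card : ℝ) ≤ (Module.finrank ℤ (𝓞 K) : ℝ) * (Nat.sqrt T : ℝ) := by exact_mod_cast h3
  have h5 : (Nat.sqrt T : ℝ) ≤ T := by exact_mod_cast Nat.sqrt_le_self T
  have h6 : ((VT K T).card : ℝ) = (((VT K T).filter (fun v => (Ideal.absNorm v.asIdeal).Prime)).card : ℝ) +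
      (((VT K T).filter (fun v => ¬ (Ideal.absNorm v.asIdeal).Prime)).card : ℝ) := by
    exact_mod_cast (card_filter_add_card_filter_not _).symm
  rw [h6]
  push_cast
  have h7 : (Module.finrank ℤ (𝓞 K) : ℝ) * (Nat.sqrt T : ℝ) ≤ (Module.finrank ℤ (𝓞 K) : ℝ) * T := mul_le_mul_of_nonneg_left h5 (Nat.cast_nonneg _)
  linarith

lemma log_sq {x : ℝ} (hx : 1 ≤ x) : Real.log x * Real.log x ≤ 16 * x ^ (1 / 2 : ℝ) := by
  have h1 := Real.log_le_rpow_div (show (0 : ℝ) ≤ x by linarith) (show (0 : ℝ) < 1 / 4 by norm_num)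
  have h2 : 0 ≤ Real.log x := Real.log_nonneg hx
  have h3 : x ^ (1 / 2 : ℝ) = x ^ (1 / 4 : ℝ) * x ^ (1 / 4 : ℝ) := by
    rw [← Real.rpow_add (by linarith)]
    norm_num
  have h4 : Real.log x ≤ 4 * x ^ (1 / 4 : ℝ) := by
    refine h1.trans (le_of_eq ?_)
    ring
  rw [h3]
  have h5 : 0 ≤ x ^ (1 / 4 : ℝ) := by positivity
  nlinarith

/-- neighbouring twists -/
lemma near_grid {η : ℝ} (hη : 0 ≤ η) (hη1 : η ≤ 1 / 2) {n : ℕ} {x : ℕ} (hn : ((VT K x).card : ℝ) ≤ n * x) (hx : 1 ≤ x)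
    (ψ : HeightOneSpectrum (𝓞 K) → ℂ) (hψ : ∀ v, ‖ψ v‖ ≤ 1) (X : HeightOneSpectrum (𝓞 K) → ℝ) (hX : ∀ v, |X v| ≤ (Ideal.absNorm v.asIdeal : ℝ) ^ η) (κ : Bool)
    (τ t : ℝ) (ht : |τ - t| ≤ 1 / (x : ℝ) ^ 2) :
    |∑ v ∈ VT K x, part κ (ch ψ τ v) * (X v * Real.log (Ideal.absNorm v.asIdeal)) -
      ∑ v ∈ VT K x, part κ (ch ψ t v) * (X v * Real.log (Ideal.absNorm v.asIdeal))| ≤ n * 16 := by
  have hx1 : (1 : ℝ) ≤ x := by exact_mod_cast hx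
  have hx0 : (0 : ℝ) < x := by linarith
  rw [← sum_sub_distrib]
  have h1 : ∀ v ∈ VT K x, |part κ (ch ψ τ v) * (X v * Real.log (Ideal.absNorm v.asIdeal)) - part κ (ch ψ t v) * (X v * Real.log (Ideal.absNorm v.asIdeal))| ≤ 16 / x := by
    intro v hv
    rw [mem_VT] at hv
    have hq0 : Ideal.absNorm v.asIdeal ≠ 0 := by
      rw [Ne, Ideal.absNorm_eq_zero_iff]
      exact v.ne_bot
    have hq1 : (1 : ℝ) ≤ (Ideal.absNorm v.asIdeal : ℕ) := by exact_mod_cast Nat.one_le_iff_ne_zero.2 hq0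
    have hqx : ((Ideal.absNorm v.asIdeal : ℕ) : ℝ) ≤ x := by exact_mod_cast hv
    have hl0 : 0 ≤ Real.log (Ideal.absNorm v.asIdeal : ℕ) := Real.log_nonneg hq1
    have hlx : Real.log (Ideal.absNorm v.asIdeal : ℕ) ≤ Real.log x := Real.log_le_log (by linarith) hqx
    have e1 : |part κ (ch ψ τ v) - part κ (ch ψ t v)| ≤ 1 / (x : ℝ) ^ 2 * Real.log x := by
      have e2 : part κ (ch ψ τ v) - part κ (ch ψ t v) = part κ (ch ψ τ v - ch ψ t v) := by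
        unfold part
        split_ifs
        · exact (Complex.sub_re _ _).symm
        · exact (Complex.sub_im _ _).symm
      rw [e2]
      refine (part_le κ _).trans ((ch_diff hψ τ t v).trans ?_)
      exact mul_le_mul ht hlx hl0 (by positivity)
    have e3 : |X v| ≤ (x : ℝ) ^ (1 / 2 : ℝ) := by
      refine (hX v).trans ?_
      refine (Real.rpow_le_rpow (by linarith) hqx hη).trans ?_
      exact Real.rpow_le_rpow_of_exponent_le hx1 hη1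
    rw [← sub_mul, abs_mul, abs_mul, abs_of_nonneg hl0]
    have e4 := log_sq hx1
    have e5 : (x : ℝ) ^ (1 / 2 : ℝ) * (x : ℝ) ^ (1 / 2 : ℝ) = x := by
      rw [← Real.rpow_add hx0]
      norm_num
    have hlx0 : 0 ≤ Real.log x := hl0.trans hlx
    calc |part κ (ch ψ τ v) - part κ (ch ψ t v)| * (|X v| * Real.log (Ideal.absNorm v.asIdeal : ℕ)) ≤
        (1 / (x : ℝ) ^ 2 * Real.log x) * ((x : ℝ) ^ (1 / 2 : ℝ) * Real.log x) := by
          apply mul_le_mul e1 _ (by positivity) (by positivity)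
          exact mul_le_mul e3 hlx hl0 (by positivity)
      _ = 1 / (x : ℝ) ^ 2 * (x : ℝ) ^ (1 / 2 : ℝ) * (Real.log x * Real.log x) := by ring
      _ ≤ 1 / (x : ℝ) ^ 2 * (x : ℝ) ^ (1 / 2 : ℝ) * (16 * (x : ℝ) ^ (1 / 2 : ℝ)) := mul_le_mul_of_nonneg_left e4 (by positivity)
      _ = 16 / (x : ℝ) ^ 2 * ((x : ℝ) ^ (1 / 2 : ℝ) * (x : ℝ) ^ (1 / 2 : ℝ)) := by ring
      _ = 16 / x := by
          rw [e5]
          field_simp
  refine (abs_sum_le_sum_abs _ _).trans ((sum_le_sum h1).trans ?_)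
  rw [sum_const, nsmul_eq_mul]
  calc ((VT K x).card : ℝ) * (16 / x) ≤ (n * x) * (16 / x) := mul_le_mul_of_nonneg_right hn (by positivity)
    _ = n * 16 := by field_simp

/-- the complex power -/
lemma cpow_ch (ψ : HeightOneSpectrum (𝓞 K) → ℂ) (z : ℂ) (v : HeightOneSpectrum (𝓞 K)) (X : ℝ) :
    ψ v * (X : ℂ) * ((Ideal.absNorm v.asIdeal : ℕ) : ℂ) ^ (-z) = ch ψ z.im v * ((X * (Ideal.absNorm v.asIdeal : ℝ) ^ (-z.re) : ℝ) : ℂ) := by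
  have hq0 : Ideal.absNorm v.asIdeal ≠ 0 := by
    rw [Ne, Ideal.absNorm_eq_zero_iff]
    exact v.ne_bot
  have hq1 : (0 : ℝ) < (Ideal.absNorm v.asIdeal : ℕ) := by exact_mod_cast Nat.pos_of_ne_zero hq0
  unfold ch
  have h1 : ((Ideal.absNorm v.asIdeal : ℕ) : ℂ) ^ (-z) = (((Ideal.absNorm v.asIdeal : ℝ) ^ (-z.re) : ℝ) : ℂ) *
      Complex.exp (Complex.I * ((-(z.im * Real.log (Ideal.absNorm v.asIdeal : ℕ)) : ℝ) : ℂ)) := by
    rw [Complex.cpow_def_of_ne_zero (by exact_mod_cast hq0), Real.rpow_def_of_pos hq1, Complex.ofReal_exp, ← Complex.exp_add]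
    congr 1
    have h2 : Complex.log ((Ideal.absNorm v.asIdeal : ℕ) : ℂ) = ((Real.log (Ideal.absNorm v.asIdeal : ℕ) : ℝ) : ℂ) := by
      rw [Complex.ofReal_log (Nat.cast_nonneg _)]
      push_cast
      rfl
    rw [h2]
    apply Complex.ext
    · simp
      ring
    · simp
      ring
  rw [h1]
  push_cast
  ring

variable {D : ℕ} {η : ℝ}

open Classical in
/-- **The sums in vertical strips.** -/
theorem strips (S : Sys K D η) (hD : 1 ≤ D) (hη : 0 ≤ η)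
    (b g : ℕ) (ω : Fin g → 𝓞 K) (hω : (1 : 𝓞 K) ∈ Submodule.span ℤ (Set.range ω)) (hg : 1 ≤ g) (hb : 2 ≤ b) (δ : ℝ) (hδ : 0 < δ)
    (hδ1 : 1 / 2 + η + δ ≤ 1) (A B : ℕ) :
    ∃ c : ℝ, 0 < c ∧ ∃ y₀ : ℕ, ∀ (L r : Fin (D * g) → ℕ) (y : ℕ), (∀ i, 2 * r i ≤ L i) → y₀ ≤ y →
    ∀ N' : Fin (D * g) → ℕ, (∀ i, N' i < b ^ L i) →
    ∀ f : Fin (D * g) → ℕ → ℕ, (∀ i j, f i j < b ∧ f i j ≠ digit b j (N' i)) →
    ∀ Ψ : Set (HeightOneSpectrum (𝓞 K) → ℂ), Ψ.Finite → Ψ.ncard ≤ y ^ B → (∀ ψ ∈ Ψ, ∀ v, ‖ψ v‖ ≤ 1) →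
    ∀ P : (Fin (D * g) → ℕ) → Prop,
    (∀ m : Fin (D * g) → ℕ, (∀ ψ ∈ Ψ, ∀ T' : ℕ, (∀ i, (T' : ℝ) ≤ Real.exp (c * r i)) →
      (y ≤ T' → ‖∑ v ∈ VT K T', ψ v * ((S.F v (cf ω m) * Real.log (Ideal.absNorm v.asIdeal) : ℝ) : ℂ)‖ ≤ (T' : ℝ) ^ (1 / 2 + η + δ)) ∧
      ∀ T : ℕ, y ≤ T → T ≤ T' → ∀ z : ℂ, 1 / 2 + η + δ ≤ z.re → |z.im| ≤ (T : ℝ) ^ B →
      ‖∑ v ∈ VT K T' \ VT K T, ψ v * ((S.F v (cf ω m) * Real.log (Ideal.absNorm v.asIdeal) : ℝ) : ℂ) * ((Ideal.absNorm v.asIdeal : ℕ) : ℂ) ^ (-z)‖ ≤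
        (T : ℝ) ^ (1 / 2 + η + δ - z.re)) → P m) →
    (exceptions b L r N' f P : ℝ) ≤ 1 / (y : ℝ) ^ A * ∏ i, ((L i).choose (r i) : ℝ) := by
  obtain ⟨n, hn⟩ := card_VT K
  obtain ⟨β, hβ⟩ : ∃ β : ℝ, β = 1 / 2 + η + δ / 2 := ⟨_, rfl⟩
  obtain ⟨ρ, hρ⟩ : ∃ ρ : ℝ, ρ = 1 / 2 + η + δ := ⟨_, rfl⟩
  have hβ0 : 0 < β := by rw [hβ]; linarith
  have hβρ : β < ρ := by rw [hβ, hρ]; linarith
  have hρ1 : ρ ≤ 1 := by rw [hρ]; exact hδ1
  obtain ⟨C, hC⟩ : ∃ C : ℝ, C = 2 * ((3 + 2 * β / (ρ - β)) * (1 + n * 16)) := ⟨_, rfl⟩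
  have hq : 0 ≤ 2 * β / (ρ - β) := by
    have : 0 < ρ - β := by linarith
    positivity
  have hC0 : 0 ≤ C := by rw [hC]; positivity
  obtain ⟨T₀, hT₀⟩ := Filter.eventually_atTop.1 (((tendsto_rpow_atTop (show (0 : ℝ) < δ / 2 by positivity)).comp
    (tendsto_natCast_atTop_atTop (R := ℝ))).eventually (Filter.eventually_ge_atTop (C + 2 * (1 + n * 16))))
  obtain ⟨c, hc, y₀, hlaw⟩ := law S hD hη (by linarith) b g ω hω hg hb (δ / 2) (by positivity) A (2 * B + 5)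
  refine ⟨c, hc, y₀ + T₀ + 2, fun L r y hrL hy N' hN' f hf Ψ hΨ hΨ2 hΨ1 P hP => ?_⟩
  refine hlaw L r y hrL (by omega) N' hN' f hf (WT Ψ B y) (WT_card Ψ hΨ B y hΨ2) (fun T w hw v => WT_le Ψ hΨ1 B y T w hw v) P fun m hm => ?_
  refine hP m fun ψ hψ T' hT'r => ?_
  -- the partial sums
  have hPS : ∀ u : ℕ, y ≤ u → u ≤ T' → ∀ τ : ℝ, |τ| ≤ (u : ℝ) ^ B → ∀ κ : Bool,
      |PS (fun v => part κ (ch ψ τ v) * (S.F v (cf ω m) * Real.log (Ideal.absNorm v.asIdeal))) u| ≤ (1 + n * 16) * (u : ℝ) ^ β := by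
    intro u hyu huT τ hτ κ
    have hu1 : (1 : ℝ) ≤ u := by exact_mod_cast (by omega : 1 ≤ u)
    obtain ⟨j, hj1, hj2⟩ := grid_pt B u (by omega) τ hτ
    have h1 := hm u hyu (fun i => le_trans (by exact_mod_cast huT) (hT'r i)) (wg u (ψ, j, κ)) (WT_mem Ψ B y u hyu (by omega) ψ hψ j hj1 κ)
    have h2 := near_grid hη (by linarith) (hn u (by omega)) (by omega) ψ (hΨ1 ψ hψ) (fun v => S.F v (cf ω m)) (fun v => S.F_le v _) κ τ ((j : ℝ) / (u : ℝ) ^ 2) hj2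
    have h3 : |PS (fun v => part κ (ch ψ τ v) * (S.F v (cf ω m) * Real.log (Ideal.absNorm v.asIdeal))) u| ≤ (u : ℝ) ^ (1 / 2 + η + δ / 2) + n * 16 := by
      unfold PS
      unfold wg at h1
      have h4 := abs_add_le (∑ v ∈ VT K u, part κ (ch ψ τ v) * (S.F v (cf ω m) * Real.log (Ideal.absNorm v.asIdeal)) -
        ∑ v ∈ VT K u, part κ (ch ψ ((j : ℝ) / (u : ℝ) ^ 2) v) * (S.F v (cf ω m) * Real.log (Ideal.absNorm v.asIdeal)))
        (∑ v ∈ VT K u, part κ (ch ψ ((j : ℝ) / (u : ℝ) ^ 2) v) * (S.F v (cf ω m) * Real.log (Ideal.absNorm v.asIdeal)))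
      rw [sub_add_cancel] at h4
      linarith
    refine h3.trans ?_
    rw [← hβ]
    have h5 : 1 ≤ (u : ℝ) ^ β := Real.one_le_rpow hu1 hβ0.le
    have h6 : (n : ℝ) * 16 ≤ n * 16 * (u : ℝ) ^ β := le_mul_of_one_le_right (by positivity) h5
    linarith
  constructor
  · intro hyT
    have hT1 : (1 : ℝ) ≤ T' := by exact_mod_cast (by omega : 1 ≤ T')
    have hT0 : (0 : ℝ) < T' := by linarith
    have h1 : ∀ κ, |part κ (∑ v ∈ VT K T', ψ v * ((S.F v (cf ω m) * Real.log (Ideal.absNorm v.asIdeal) : ℝ) : ℂ))| ≤ (1 + n * 16) * (T' : ℝ) ^ β := by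
      intro κ
      rw [part_sum]
      have h2 := hPS T' hyT le_rfl 0 (by rw [abs_zero]; positivity) κ
      unfold PS at h2
      refine le_trans (le_of_eq ?_) h2
      congr 1
      refine sum_congr rfl fun v _ => ?_
      rw [part_mul]
      congr 2
      unfold ch
      simp
    refine (norm_le_parts _ _ h1).trans ?_
    have h3 := hT₀ T' (by omega)
    simp only [Function.comp] at h3
    have h4 : (T' : ℝ) ^ (1 / 2 + η + δ) = (T' : ℝ) ^ (δ / 2) * (T' : ℝ) ^ β := by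
      rw [← Real.rpow_add hT0, hβ]
      congr 1
      ring
    rw [h4, ← mul_assoc]
    apply mul_le_mul_of_nonneg_right _ (by positivity)
    linarith
  · intro T hyT hTT z hz1 hz2
    have hT1 : (1 : ℝ) ≤ T := by exact_mod_cast (by omega : 1 ≤ T)
    have hT0 : (0 : ℝ) < T := by linarith
    have h1 : ∀ κ, |part κ (∑ v ∈ VT K T' \ VT K T, ψ v * ((S.F v (cf ω m) * Real.log (Ideal.absNorm v.asIdeal) : ℝ) : ℂ) * ((Ideal.absNorm v.asIdeal : ℕ) : ℂ) ^ (-z))| ≤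
        (3 + 2 * β / (ρ - β)) * (1 + n * 16) * (T : ℝ) ^ (β - z.re) := by
      intro κ
      rw [part_sum]
      have h2 := right hβ0 hβρ hρ1 (fun v => part κ (ch ψ z.im v) * (S.F v (cf ω m) * Real.log (Ideal.absNorm v.asIdeal))) (1 + n * 16) (by positivity) T T'
        (by omega) hTT (fun u hu1 hu2 => hPS u (by omega) hu2 z.im (hz2.trans (pow_le_pow_left₀ hT0.le (by exact_mod_cast hu1) B)) κ) z.re (by rw [hρ]; exact hz1)
      refine le_trans (le_of_eq ?_) h2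
      congr 1
      refine sum_congr rfl fun v _ => ?_
      rw [cpow_ch, part_mul]
      ring
    refine (norm_le_parts _ _ h1).trans ?_
    have h3 := hT₀ T (by omega)
    simp only [Function.comp] at h3
    have h4 : (T : ℝ) ^ (1 / 2 + η + δ - z.re) = (T : ℝ) ^ (δ / 2) * (T : ℝ) ^ (β - z.re) := by
      rw [← Real.rpow_add hT0, hβ]
      congr 1
      ring
    have h5 : 2 * ((3 + 2 * β / (ρ - β)) * (1 + n * 16) * (T : ℝ) ^ (β - z.re)) = C * (T : ℝ) ^ (β - z.re) := by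
      rw [hC]
      ring
    rw [h4, h5]
    apply mul_le_mul_of_nonneg_right _ (by positivity)
    have : (0 : ℝ) ≤ n := Nat.cast_nonneg _
    linarith

end

end Pool.Agent.N842.TY
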